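import Mathlib
import Pool.Agent.TH796.AL.StmsG
import Pool.Agent.TH796.AL.Lem
import Pool.Agent.TH932.S2.Rc3

set_option autoImplicit false
set_option linter.unusedSectionVars false

/-!
# Addresses in a system of rational contractions at a scale of low complexity (job 3436, part 1)
-/

namespace Pool.Agent.TH634.AR

open Filter Topology Pool.Agent.TH932.Abs Pool.Agent.TH932.Germs Pool.Agent.TH932.Chi
open Pool.Agent.TH932.Words Pool.Agent.TH932.Scale Pool.Agent.TH796.AL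

/-- scales of low complexity for an address of a real number -/
structure RG where
  m : ℕ
  B : Base m
  α : Type
  fin : Finite α
  γ : α → ℚ
  tr : α → ℚ
  hγ : ∀ a, γ a ≠ 0 ∧ |γ a| < 1
  e : α → Fin m → ℤ
  he : ∀ a, |γ a| = ∏ i, (B.P i : ℚ) ^ e a i
  w : ℕ → α
  y : ℕ → ℝ
  M : ℝ
  hM : ∀ n, |y n| ≤ M
  hy : ∀ n, y n = γ (w n) * y (n + 1) + tr (w n)
  hx : Irrational (y 0)
  l : ℕ → ℕ
  L : ℕ → ℝ
  R : ℕ
  C : ℝ
  tL : Tendsto L atTop atTop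
  hl1 : ∀ n, 1 ≤ l n
  hlL : ∀ n, (l n : ℝ) ≤ L n
  hLl : ∀ n, L n ≤ 2 * l n
  hcx : ∀ n, (cx w (l n) : ℝ) ≤ C * l n
  hR : ∀ n, 2 * cx w (l n + 1) ≤ R + 2 * cx w (l n)

/-- the integers as a subring of the rational numbers -/
def ZZ : Subring ℚ := (Int.castRingHom ℚ).range

lemma mem_ZZ {q : ℚ} : q ∈ ZZ ↔ ∃ z : ℤ, (z : ℚ) = q := Iff.rfl

lemma int_mem_ZZ (z : ℤ) : (z : ℚ) ∈ ZZ := ⟨z, rfl⟩
lemma nat_mem_ZZ (n : ℕ) : (n : ℚ) ∈ ZZ := ⟨n, by simp⟩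

namespace RG

variable (X : RG)

instance : Finite X.α := X.fin

instance : Nonempty X.α := ⟨X.w 0⟩

lemma M0 : 0 ≤ X.M := (abs_nonneg _).trans (X.hM 0)

/-! ## constants -/

lemma exists_E : ∃ E : ℕ, ∀ a i, |X.e a i| ≤ E := by
  classical
  have := Fintype.ofFinite X.α
  refine ⟨∑ a, ∑ i, (X.e a i).natAbs, fun a i => ?_⟩
  have h1 : (X.e a i).natAbs ≤ ∑ i, (X.e a i).natAbs :=
    Finset.single_le_sum (f := fun i => (X.e a i).natAbs) (fun _ _ => Nat.zero_le _)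
      (Finset.mem_univ i)
  have h2 : ∑ i, (X.e a i).natAbs ≤ ∑ a, ∑ i, (X.e a i).natAbs :=
    Finset.single_le_sum (f := fun a => ∑ i, (X.e a i).natAbs) (fun _ _ => Nat.zero_le _)
      (Finset.mem_univ a)
  rw [Int.abs_eq_natAbs]
  exact_mod_cast h1.trans h2

/-- bound for the exponents -/
noncomputable def E : ℕ := X.exists_E.choose
lemma hE (a : X.α) (i : Fin X.m) : |X.e a i| ≤ X.E := X.exists_E.choose_spec a i

/-- the product of the powers -/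
noncomputable def PP : ℕ := ∏ i, X.B.P i ^ X.E

lemma PP_pos : 1 ≤ X.PP := by
  unfold PP
  exact Nat.one_le_iff_ne_zero.2 (Finset.prod_ne_zero_iff.2 fun i _ =>
    pow_ne_zero _ (X.B.pos i).ne')

lemma PPq_pos : (0 : ℚ) < X.PP := by have := X.PP_pos; exact_mod_cast this
lemma PPr_one : (1 : ℝ) ≤ X.PP := by exact_mod_cast X.PP_pos

lemma prod_zz (f : Fin X.m → ℤ) (hf : ∀ i, -(X.E : ℤ) ≤ f i) :
    (X.PP : ℚ) * ∏ i, (X.B.P i : ℚ) ^ f i ∈ ZZ := by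
  have e1 : (X.PP : ℚ) * ∏ i, (X.B.P i : ℚ) ^ f i
      = ∏ i, (X.B.P i : ℚ) ^ (((X.E : ℤ) + f i).toNat) := by
    unfold PP
    push_cast
    rw [← Finset.prod_mul_distrib]
    refine Finset.prod_congr rfl fun i _ => ?_
    have h := hf i
    rw [← zpow_natCast, ← zpow_natCast, ← zpow_add₀ (X.B.q0 i)]
    congr 1
    omega
  rw [e1]
  exact prod_mem fun i _ => pow_mem (nat_mem_ZZ _) _

lemma abs_zz {q : ℚ} (h : |q| ∈ ZZ) : q ∈ ZZ := by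
  rcases abs_choice q with h1 | h1
  · rwa [h1] at h
  · rw [h1] at h
    have := neg_mem h
    rwa [neg_neg] at this

lemma zz_γ (a : X.α) : (X.PP : ℚ) * X.γ a ∈ ZZ := by
  apply abs_zz
  rw [abs_mul, X.he, abs_of_pos X.PPq_pos]
  exact X.prod_zz _ fun i => (abs_le.1 (X.hE a i)).1

lemma zz_γinv (a : X.α) : (X.PP : ℚ) * (X.γ a)⁻¹ ∈ ZZ := by
  apply abs_zz
  rw [abs_mul, abs_inv, X.he, abs_of_pos X.PPq_pos, ← Finset.prod_inv_distrib]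
  have e1 : ∏ i, ((X.B.P i : ℚ) ^ X.e a i)⁻¹ = ∏ i, (X.B.P i : ℚ) ^ (-X.e a i) :=
    Finset.prod_congr rfl fun i _ => (zpow_neg _ _).symm
  rw [e1]
  refine X.prod_zz _ fun i => ?_
  have := (abs_le.1 (X.hE a i)).2
  linarith

lemma γinv_le (a : X.α) : |((X.γ a : ℝ))⁻¹| ≤ X.PP := by
  -- the inverse of `PP * γ a` is bounded by one
  obtain ⟨z, hz⟩ := X.zz_γ a
  have hz' : (z : ℚ) = X.PP * X.γ a := hz
  have hz0 : z ≠ 0 := by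
    rintro rfl
    rw [Int.cast_zero] at hz'
    have h1 := mul_ne_zero X.PPq_pos.ne' (X.hγ a).1
    exact h1 hz'.symm
  have h1 : (1 : ℝ) ≤ |(z : ℝ)| := by exact_mod_cast Int.one_le_abs hz0
  have h2 : (z : ℝ) = X.PP * X.γ a := by exact_mod_cast hz'
  have hP := X.PPr_one
  have hg : (X.γ a : ℝ) ≠ 0 := by exact_mod_cast (X.hγ a).1
  rw [h2, abs_mul, abs_of_pos (by linarith)] at h1
  rw [abs_inv, inv_le_iff_one_le_mul₀ (abs_pos.2 hg)]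
  exact h1

lemma exists_D : ∃ D : ℕ, 1 ≤ D ∧ ∀ a, (D : ℚ) * X.tr a ∈ ZZ := by
  classical
  have := Fintype.ofFinite X.α
  refine ⟨∏ a, (X.tr a).den, Nat.one_le_iff_ne_zero.2 (Finset.prod_ne_zero_iff.2 fun a _ =>
    (X.tr a).den_nz), fun a => ?_⟩
  rw [← Finset.mul_prod_erase _ _ (Finset.mem_univ a)]
  have e1 : (((X.tr a).den * ∏ x ∈ Finset.univ.erase a, (X.tr x).den : ℕ) : ℚ) * X.tr a
      = ((X.tr a).num : ℚ) * ((∏ x ∈ Finset.univ.erase a, (X.tr x).den : ℕ) : ℚ) := by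
    have h := Rat.mul_den_eq_num (X.tr a)
    push_cast
    rw [← h]
    ring
  rw [e1]
  exact mul_mem (int_mem_ZZ _) (nat_mem_ZZ _)

/-- a common denominator of the translations -/
noncomputable def D : ℕ := X.exists_D.choose
lemma D1 : 1 ≤ X.D := X.exists_D.choose_spec.1
lemma zz_tr (a : X.α) : (X.D : ℚ) * X.tr a ∈ ZZ := X.exists_D.choose_spec.2 a
lemma Dr1 : (1 : ℝ) ≤ X.D := by exact_mod_cast X.D1
lemma Dq_pos : (0 : ℚ) < X.D := by have := X.D1; exact_mod_cast this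

lemma exists_ρ : ∃ ρ : ℝ, 0 < ρ ∧ ρ < 1 ∧ ∀ a, |(X.γ a : ℝ)| ≤ ρ := by
  obtain ⟨a, ha⟩ := Finite.exists_max fun a => |(X.γ a : ℝ)|
  refine ⟨|(X.γ a : ℝ)|, ?_, ?_, ha⟩
  · exact abs_pos.2 (by exact_mod_cast (X.hγ a).1)
  · exact_mod_cast (X.hγ a).2

/-- the contraction -/
noncomputable def ρ : ℝ := X.exists_ρ.choose
lemma ρ0 : 0 < X.ρ := X.exists_ρ.choose_spec.1
lemma ρ1 : X.ρ < 1 := X.exists_ρ.choose_spec.2.1
lemma hρ (a : X.α) : |(X.γ a : ℝ)| ≤ X.ρ := X.exists_ρ.choose_spec.2.2 a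

/-- the rate -/
noncomputable def lam : ℝ := -Real.log X.ρ
lemma lam_pos : 0 < X.lam := by
  unfold lam
  have := Real.log_neg X.ρ0 X.ρ1
  linarith
lemma ρ_pow (n : ℕ) : X.ρ ^ n = Real.exp (-(X.lam * n)) := by
  unfold lam
  rw [neg_mul, neg_neg, mul_comm, Real.exp_nat_mul, Real.exp_log X.ρ0]

lemma exists_H : ∃ H : ℕ, 2 ≤ H ∧ X.PP ^ 3 ≤ H ∧ 2 * X.D ≤ H ∧ 4 * X.M * X.D ≤ H := by
  refine ⟨2 + X.PP ^ 3 + 2 * X.D + ⌈4 * X.M * X.D⌉₊, by omega, by omega, by omega, ?_⟩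
  have h1 := Nat.le_ceil (4 * X.M * X.D)
  push_cast
  have h2 : (0 : ℝ) ≤ (X.PP : ℝ) ^ 3 := by positivity
  have h3 : (0 : ℝ) ≤ X.D := by positivity
  linarith

/-- height bound -/
noncomputable def H : ℕ := X.exists_H.choose
lemma H2 : 2 ≤ X.H := X.exists_H.choose_spec.1
lemma HP : X.PP ^ 3 ≤ X.H := X.exists_H.choose_spec.2.1
lemma HD : 2 * X.D ≤ X.H := X.exists_H.choose_spec.2.2.1
lemma HM : 4 * X.M * X.D ≤ X.H := X.exists_H.choose_spec.2.2.2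

/-! ## products and sums along the address -/

/-- products of the contractions -/
noncomputable def Γ (i j : ℕ) : ℚ := ∏ k ∈ Finset.Ico i j, X.γ (X.w k)

/-- the translations of the compositions -/
noncomputable def Q (i j : ℕ) : ℚ := ∑ k ∈ Finset.Ico i j, X.Γ i k * X.tr (X.w k)

lemma Γ_self (i : ℕ) : X.Γ i i = 1 := by unfold Γ; simp
lemma Q_self (i : ℕ) : X.Q i i = 0 := by unfold Q; simp

lemma Γ_comp {i j k : ℕ} (hij : i ≤ j) (hjk : j ≤ k) : X.Γ i k = X.Γ i j * X.Γ j k := by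
  unfold Γ; rw [Finset.prod_Ico_consecutive _ hij hjk]

lemma Γ_one (i : ℕ) : X.Γ i (i + 1) = X.γ (X.w i) := by unfold Γ; simp
lemma Q_one (i : ℕ) : X.Q i (i + 1) = X.tr (X.w i) := by unfold Q; simp [Γ_self]

lemma Q_comp {i j k : ℕ} (hij : i ≤ j) (hjk : j ≤ k) :
    X.Q i k = X.Q i j + X.Γ i j * X.Q j k := by
  unfold Q
  rw [← Finset.sum_Ico_consecutive _ hij hjk, Finset.mul_sum]
  congr 1
  refine Finset.sum_congr rfl fun r hr => ?_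
  rw [X.Γ_comp hij (Finset.mem_Ico.1 hr).1, mul_assoc]

lemma Γ_ne (i j : ℕ) : X.Γ i j ≠ 0 := Finset.prod_ne_zero_iff.2 fun _ _ => (X.hγ _).1

lemma y_add (i k : ℕ) : X.y i = X.Q i (i + k) + X.Γ i (i + k) * X.y (i + k) := by
  induction k with
  | zero => rw [add_zero, X.Q_self, X.Γ_self]; simp
  | succ k ih =>
    rw [ih, X.hy (i + k), ← add_assoc, X.Q_comp (Nat.le_add_right i k) (Nat.le_succ _),
      X.Γ_comp (Nat.le_add_right i k) (Nat.le_succ (i + k)), Nat.succ_eq_add_one, X.Q_one, X.Γ_one]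
    push_cast
    ring

lemma y_rec {i j : ℕ} (hij : i ≤ j) : X.y i = X.Q i j + X.Γ i j * X.y j := by
  obtain ⟨k, rfl⟩ := Nat.exists_eq_add_of_le hij
  exact X.y_add i k

lemma Γ_abs (i j : ℕ) : |(X.Γ i j : ℝ)| ≤ X.ρ ^ (j - i) := by
  unfold Γ
  push_cast
  rw [Finset.abs_prod, ← Nat.card_Ico i j, ← Finset.prod_const]
  exact Finset.prod_le_prod (fun _ _ => abs_nonneg _) fun _ _ => X.hρ _

lemma Γ_abs1 (i j : ℕ) : |(X.Γ i j : ℝ)| ≤ 1 :=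
  (X.Γ_abs i j).trans (pow_le_one₀ X.ρ0.le X.ρ1.le)

lemma Γinv_abs (i j : ℕ) : |((X.Γ i j : ℝ))⁻¹| ≤ (X.PP : ℝ) ^ (j - i) := by
  unfold Γ
  push_cast
  rw [← Finset.prod_inv_distrib, Finset.abs_prod, ← Nat.card_Ico i j, ← Finset.prod_const]
  exact Finset.prod_le_prod (fun _ _ => abs_nonneg _) fun _ _ => X.γinv_le _

lemma Q_abs {i j : ℕ} (hij : i ≤ j) : |(X.Q i j : ℝ)| ≤ 2 * X.M := by
  have h1 := X.y_rec hij
  have h2 : (X.Q i j : ℝ) = X.y i - X.Γ i j * X.y j := by linarith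
  rw [h2]
  refine (abs_sub _ _).trans ?_
  rw [abs_mul]
  have h3 := X.hM i
  have h4 := X.hM j
  have h5 := X.Γ_abs1 i j
  have h6 : |(X.Γ i j : ℝ)| * |X.y j| ≤ 1 * X.M :=
    mul_le_mul h5 h4 (abs_nonneg _) one_pos.le
  linarith

lemma zz_pow_mul {q : ℚ} {a b : ℕ} (h : (X.PP : ℚ) ^ a * q ∈ ZZ) (hab : a ≤ b) :
    (X.PP : ℚ) ^ b * q ∈ ZZ := by
  obtain ⟨k, rfl⟩ := Nat.exists_eq_add_of_le hab
  have : (X.PP : ℚ) ^ (a + k) * q = (X.PP : ℚ) ^ k * ((X.PP : ℚ) ^ a * q) := by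
    rw [pow_add]; ring
  rw [this]
  exact mul_mem (pow_mem (nat_mem_ZZ _) _) h

lemma zz_Γ {i j h : ℕ} (hh : j - i ≤ h) : (X.PP : ℚ) ^ h * X.Γ i j ∈ ZZ := by
  refine X.zz_pow_mul ?_ hh
  unfold Γ
  rw [← Nat.card_Ico i j, ← Finset.prod_const, ← Finset.prod_mul_distrib]
  exact prod_mem fun k _ => X.zz_γ _

lemma zz_Γinv {i j h : ℕ} (hh : j - i ≤ h) : (X.PP : ℚ) ^ h * (X.Γ i j)⁻¹ ∈ ZZ := by
  refine X.zz_pow_mul ?_ hh
  unfold Γ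
  rw [← Nat.card_Ico i j, ← Finset.prod_const, ← Finset.prod_inv_distrib, ← Finset.prod_mul_distrib]
  exact prod_mem fun k _ => X.zz_γinv _

lemma zz_Q {i j h : ℕ} (hh : j - i ≤ h) : (X.D : ℚ) * (X.PP : ℚ) ^ h * X.Q i j ∈ ZZ := by
  unfold Q
  rw [Finset.mul_sum]
  refine sum_mem fun k hk => ?_
  have hk' := Finset.mem_Ico.1 hk
  have e1 : (X.D : ℚ) * (X.PP : ℚ) ^ h * (X.Γ i k * X.tr (X.w k))
      = ((X.PP : ℚ) ^ h * X.Γ i k) * ((X.D : ℚ) * X.tr (X.w k)) := by ring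
  rw [e1]
  exact mul_mem (X.zz_Γ (by omega)) (X.zz_tr _)

lemma word_dep {l i j : ℕ} (h : Eqv X.w l i j) :
    X.Γ i (i + l) = X.Γ j (j + l) ∧ X.Q i (i + l) = X.Q j (j + l) := by
  induction l with
  | zero => simp [Q_self, Γ_self]
  | succ l ih =>
    obtain ⟨h2, h3⟩ := ih (h.mono (Nat.le_succ l))
    have h4 := h l (Nat.lt_succ_self l)
    rw [← add_assoc, ← add_assoc, X.Q_comp (Nat.le_add_right i l) (Nat.le_succ _),
      X.Q_comp (Nat.le_add_right j l) (Nat.le_succ _),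
      X.Γ_comp (Nat.le_add_right i l) (Nat.le_succ (i + l)),
      X.Γ_comp (Nat.le_add_right j l) (Nat.le_succ (j + l)), Nat.succ_eq_add_one,
      Nat.succ_eq_add_one, X.Γ_one, X.Γ_one, X.Q_one, X.Q_one, h2, h3, h4]
    exact ⟨rfl, rfl⟩

lemma y_close {l i j : ℕ} (h : Eqv X.w l i j) : |X.y i - X.y j| ≤ 2 * X.M * X.ρ ^ l := by
  obtain ⟨h1, h2⟩ := X.word_dep h
  have e1 := X.y_rec (Nat.le_add_right i l)
  have e2 := X.y_rec (Nat.le_add_right j l)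
  rw [h1, h2] at e1
  have e3 : X.y i - X.y j = X.Γ j (j + l) * (X.y (i + l) - X.y (j + l)) := by
    rw [e1, e2]; ring
  have h3 := X.Γ_abs j (j + l)
  rw [Nat.add_sub_cancel_left] at h3
  have h4 : |X.y (i + l) - X.y (j + l)| ≤ 2 * X.M := by
    refine (abs_sub _ _).trans ?_
    have a1 := X.hM (i + l)
    have a2 := X.hM (j + l)
    linarith
  rw [e3, abs_mul]
  calc |(X.Γ j (j + l) : ℝ)| * |X.y (i + l) - X.y (j + l)| ≤ X.ρ ^ l * (2 * X.M) :=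
        mul_le_mul h3 h4 (abs_nonneg _) (pow_nonneg X.ρ0.le _)
    _ = 2 * X.M * X.ρ ^ l := by ring

lemma aper (a c : ℕ) (hac : a < c) : ∃ k, X.w (a + k) ≠ X.w (c + k) := by
  by_contra hcon
  push Not at hcon
  have h1 : ∀ l : ℕ, |X.y a - X.y c| ≤ 2 * X.M * X.ρ ^ l := fun l => X.y_close fun k _ => hcon k
  have h2 : X.y a - X.y c = 0 := by
    have h3 : Tendsto (fun l : ℕ => 2 * X.M * X.ρ ^ l) atTop (𝓝 0) := by
      have := (tendsto_pow_atTop_nhds_zero_of_lt_one X.ρ0.le X.ρ1).const_mul (2 * X.M)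
      rwa [mul_zero] at this
    have h4 : |X.y a - X.y c| ≤ 0 := ge_of_tendsto' h3 h1
    exact abs_eq_zero.1 (le_antisymm h4 (abs_nonneg _))
  apply X.hx
  have h5 := X.y_rec hac.le
  have h6 := X.y_rec (Nat.zero_le a)
  have h7 : |(X.Γ a c : ℝ)| < 1 := by
    refine (X.Γ_abs a c).trans_lt ?_
    exact pow_lt_one₀ X.ρ0.le X.ρ1 (by omega)
  have h8 : (1 : ℝ) - X.Γ a c ≠ 0 := by
    have := (abs_lt.1 h7).2
    linarith
  have h9 : X.y a = X.Q a c / (1 - X.Γ a c) := by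
    have e : X.y c = X.y a := by linarith
    rw [e] at h5
    rw [eq_div_iff h8]
    linarith
  refine ⟨X.Q 0 a + X.Γ 0 a * (X.Q a c / (1 - X.Γ a c)), ?_⟩
  push_cast
  rw [h6, h9]

/-! ## shadows -/

lemma Hr : (2 : ℝ) ≤ X.H := by exact_mod_cast X.H2
lemma HPr : (X.PP : ℝ) ^ 3 ≤ X.H := by exact_mod_cast X.HP
lemma HDr : 2 * (X.D : ℝ) ≤ X.H := by exact_mod_cast X.HD

lemma key_bound {A : ℝ} (hA : 0 ≤ A) (hAH : A ≤ X.H) (h : ℕ) :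
    A * (X.PP : ℝ) ^ (3 * h) ≤ (X.H : ℝ) ^ (h + 1) := by
  have h1 : (X.PP : ℝ) ^ (3 * h) ≤ (X.H : ℝ) ^ h := by
    rw [pow_mul]
    have := X.PPr_one
    exact pow_le_pow_left₀ (by positivity) X.HPr h
  have h2 := X.PPr_one
  calc A * (X.PP : ℝ) ^ (3 * h) ≤ X.H * (X.H : ℝ) ^ h :=
        mul_le_mul hAH h1 (by positivity) (by have := X.Hr; linarith)
    _ = (X.H : ℝ) ^ (h + 1) := by ring

/-- a near repetition gives a rational shadow -/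
lemma shadow {l h i s t : ℕ} (his : i ≤ s) (hst : s < t) (hth : t ≤ i + h)
    (hE : Eqv X.w l s t) : ∃ m d : ℤ, d ≠ 0 ∧ |m| ≤ (X.H : ℤ) ^ (h + 1) ∧
      |d| ≤ (X.H : ℤ) ^ (h + 1) ∧ |d * X.y i - m| ≤ (X.H : ℝ) ^ (h + 1) * X.ρ ^ l := by
  have hPP := X.PPr_one
  have hD := X.Dr1
  -- the integers
  obtain ⟨d, hd⟩ : (X.D : ℚ) * (X.PP : ℚ) ^ (2 * h) * ((X.Γ i s)⁻¹ - (X.Γ i t)⁻¹) ∈ ZZ := by
    have e1 : (X.D : ℚ) * (X.PP : ℚ) ^ (2 * h) * ((X.Γ i s)⁻¹ - (X.Γ i t)⁻¹)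
        = X.D * ((X.PP : ℚ) ^ (2 * h) * (X.Γ i s)⁻¹ - (X.PP : ℚ) ^ (2 * h) * (X.Γ i t)⁻¹) := by
      ring
    rw [e1]
    exact mul_mem (nat_mem_ZZ _) (sub_mem (X.zz_Γinv (by omega)) (X.zz_Γinv (by omega)))
  obtain ⟨m, hm⟩ : (X.D : ℚ) * (X.PP : ℚ) ^ (2 * h) * (X.Q i s * (X.Γ i s)⁻¹
      - X.Q i t * (X.Γ i t)⁻¹) ∈ ZZ := by
    have e1 : (X.D : ℚ) * (X.PP : ℚ) ^ (2 * h) * (X.Q i s * (X.Γ i s)⁻¹ - X.Q i t * (X.Γ i t)⁻¹)
        = (X.D * (X.PP : ℚ) ^ h * X.Q i s) * ((X.PP : ℚ) ^ h * (X.Γ i s)⁻¹)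
          - (X.D * (X.PP : ℚ) ^ h * X.Q i t) * ((X.PP : ℚ) ^ h * (X.Γ i t)⁻¹) := by
      rw [two_mul, pow_add]; ring
    rw [e1]
    exact sub_mem (mul_mem (X.zz_Q (by omega)) (X.zz_Γinv (by omega)))
      (mul_mem (X.zz_Q (by omega)) (X.zz_Γinv (by omega)))
  have hd' : (d : ℝ) = (X.D : ℝ) * (X.PP : ℝ) ^ (2 * h) * (((X.Γ i s : ℝ))⁻¹
      - ((X.Γ i t : ℝ))⁻¹) := by exact_mod_cast hd
  have hm' : (m : ℝ) = (X.D : ℝ) * (X.PP : ℝ) ^ (2 * h) * (X.Q i s * ((X.Γ i s : ℝ))⁻¹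
      - X.Q i t * ((X.Γ i t : ℝ))⁻¹) := by exact_mod_cast hm
  have g1 : |((X.Γ i s : ℝ))⁻¹| ≤ (X.PP : ℝ) ^ h :=
    (X.Γinv_abs i s).trans (pow_le_pow_right₀ hPP (by omega))
  have g2 : |((X.Γ i t : ℝ))⁻¹| ≤ (X.PP : ℝ) ^ h :=
    (X.Γinv_abs i t).trans (pow_le_pow_right₀ hPP (by omega))
  have q1 := X.Q_abs his
  have q2 := X.Q_abs (his.trans hst.le)
  have hM0 := X.M0
  have eP : (X.PP : ℝ) ^ (2 * h) * (X.PP : ℝ) ^ h = (X.PP : ℝ) ^ (3 * h) := by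
    rw [← pow_add]; congr 1; omega
  have hpos : (0 : ℝ) ≤ X.D * (X.PP : ℝ) ^ (2 * h) := by positivity
  have n1 : (X.Γ i s : ℝ) ≠ 0 := by exact_mod_cast X.Γ_ne i s
  have n2 : (X.Γ i t : ℝ) ≠ 0 := by exact_mod_cast X.Γ_ne i t
  have n3 : (X.Γ s t : ℝ) ≠ 0 := by exact_mod_cast X.Γ_ne s t
  refine ⟨m, d, ?_, ?_, ?_, ?_⟩
  · rintro rfl
    have h1 : (X.D : ℚ) * (X.PP : ℚ) ^ (2 * h) ≠ 0 :=
      mul_ne_zero X.Dq_pos.ne' (pow_ne_zero _ X.PPq_pos.ne')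
    have h2 : (X.Γ i s)⁻¹ - (X.Γ i t)⁻¹ = 0 := by
      have h3 : (X.D : ℚ) * (X.PP : ℚ) ^ (2 * h) * ((X.Γ i s)⁻¹ - (X.Γ i t)⁻¹) = 0 := by
        rw [← hd]; simp
      exact (mul_eq_zero.1 h3).resolve_left h1
    have h4 : X.Γ i s = X.Γ i t := inv_injective (sub_eq_zero.1 h2)
    rw [X.Γ_comp his hst.le] at h4
    have h5 : X.Γ s t = 1 := by
      have := X.Γ_ne i s
      exact mul_left_cancel₀ this (by rw [mul_one]; exact h4.symm)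
    have h6 : |(X.Γ s t : ℝ)| < 1 := by
      refine (X.Γ_abs s t).trans_lt ?_
      exact pow_lt_one₀ X.ρ0.le X.ρ1 (by omega)
    rw [h5] at h6
    simp at h6
  · have h1 : |(m : ℝ)| ≤ (X.H : ℝ) ^ (h + 1) := by
      rw [hm', abs_mul, abs_of_nonneg hpos]
      have h2 : |X.Q i s * ((X.Γ i s : ℝ))⁻¹ - X.Q i t * ((X.Γ i t : ℝ))⁻¹|
          ≤ 4 * X.M * (X.PP : ℝ) ^ h := by
        refine (abs_sub _ _).trans ?_
        rw [abs_mul, abs_mul]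
        have a1 : |(X.Q i s : ℝ)| * |((X.Γ i s : ℝ))⁻¹| ≤ 2 * X.M * (X.PP : ℝ) ^ h :=
          mul_le_mul q1 g1 (abs_nonneg _) (by positivity)
        have a2 : |(X.Q i t : ℝ)| * |((X.Γ i t : ℝ))⁻¹| ≤ 2 * X.M * (X.PP : ℝ) ^ h :=
          mul_le_mul q2 g2 (abs_nonneg _) (by positivity)
        linarith
      calc X.D * (X.PP : ℝ) ^ (2 * h) * |X.Q i s * ((X.Γ i s : ℝ))⁻¹ - X.Q i t * ((X.Γ i t : ℝ))⁻¹|
          ≤ X.D * (X.PP : ℝ) ^ (2 * h) * (4 * X.M * (X.PP : ℝ) ^ h) := by gcongr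
        _ = 4 * X.M * X.D * ((X.PP : ℝ) ^ (2 * h) * (X.PP : ℝ) ^ h) := by ring
        _ = 4 * X.M * X.D * (X.PP : ℝ) ^ (3 * h) := by rw [eP]
        _ ≤ _ := X.key_bound (by positivity) X.HM h
    exact_mod_cast h1
  · have h1 : |(d : ℝ)| ≤ (X.H : ℝ) ^ (h + 1) := by
      rw [hd', abs_mul, abs_of_nonneg hpos]
      have h2 : |((X.Γ i s : ℝ))⁻¹ - ((X.Γ i t : ℝ))⁻¹| ≤ 2 * (X.PP : ℝ) ^ h := by
        refine (abs_sub _ _).trans ?_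
        linarith
      calc X.D * (X.PP : ℝ) ^ (2 * h) * |((X.Γ i s : ℝ))⁻¹ - ((X.Γ i t : ℝ))⁻¹|
          ≤ X.D * (X.PP : ℝ) ^ (2 * h) * (2 * (X.PP : ℝ) ^ h) := by gcongr
        _ = 2 * X.D * ((X.PP : ℝ) ^ (2 * h) * (X.PP : ℝ) ^ h) := by ring
        _ = 2 * X.D * (X.PP : ℝ) ^ (3 * h) := by rw [eP]
        _ ≤ _ := X.key_bound (by positivity) X.HDr h
    exact_mod_cast h1
  · have e1 : (X.y s : ℝ) = (X.y i - X.Q i s) * ((X.Γ i s : ℝ))⁻¹ := by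
      rw [X.y_rec his]; field_simp; ring
    have e2 : (X.y t : ℝ) = (X.y i - X.Q i t) * ((X.Γ i t : ℝ))⁻¹ := by
      rw [X.y_rec (his.trans hst.le)]; field_simp; ring
    have e3 : (d : ℝ) * X.y i - m = (X.D : ℝ) * (X.PP : ℝ) ^ (2 * h) * (X.y s - X.y t) := by
      rw [hd', hm', e1, e2]; ring
    rw [e3, abs_mul, abs_of_nonneg hpos]
    have h3 := X.y_close hE
    have hr : 0 ≤ X.ρ ^ l := pow_nonneg X.ρ0.le _
    have h4 : (X.PP : ℝ) ^ (2 * h) ≤ (X.PP : ℝ) ^ (3 * h) := pow_le_pow_right₀ hPP (by omega)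
    calc X.D * (X.PP : ℝ) ^ (2 * h) * |X.y s - X.y t|
        ≤ X.D * (X.PP : ℝ) ^ (3 * h) * (2 * X.M * X.ρ ^ l) := by gcongr
      _ = (2 * X.M * X.D) * (X.PP : ℝ) ^ (3 * h) * X.ρ ^ l := by ring
      _ ≤ (X.H : ℝ) ^ (h + 1) * X.ρ ^ l := by
          refine mul_le_mul_of_nonneg_right (X.key_bound (by positivity) ?_ h) hr
          have := X.HM
          nlinarith

lemma shadow_step {l h i : ℕ} {m d m' d' : ℤ}
    (hd : |d| ≤ (X.H : ℤ) ^ (h + 1)) (hd' : |d'| ≤ (X.H : ℤ) ^ (h + 1))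
    (h1 : |d * X.y i - m| ≤ (X.H : ℝ) ^ (h + 1) * X.ρ ^ l)
    (h2 : |d' * X.y (i + 1) - m'| ≤ (X.H : ℝ) ^ (h + 1) * X.ρ ^ l)
    (hl : (X.H : ℝ) ^ (2 * h + 4) * X.ρ ^ l < 1) :
    (d' * m : ℚ) = X.γ (X.w i) * d * m' + X.tr (X.w i) * d * d' := by
  have hH := X.Hr
  have hPP := X.PPr_one
  have hD := X.Dr1
  set ε := (X.H : ℝ) ^ (h + 1) * X.ρ ^ l with hε
  have hε0 : 0 ≤ ε := by have := X.ρ0; positivity
  -- an integer
  obtain ⟨N, hN⟩ : (X.D : ℚ) * X.PP * (d' * m - (X.γ (X.w i) * d * m' + X.tr (X.w i) * d * d'))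
      ∈ ZZ := by
    have e1 : (X.D : ℚ) * X.PP * (d' * m - (X.γ (X.w i) * d * m' + X.tr (X.w i) * d * d'))
        = X.D * X.PP * (d' * m) - (X.D * (X.PP * X.γ (X.w i)) * (d * m')
          + X.PP * (X.D * X.tr (X.w i)) * (d * d')) := by ring
    rw [e1]
    exact sub_mem (mul_mem (mul_mem (nat_mem_ZZ _) (nat_mem_ZZ _))
        (mul_mem (int_mem_ZZ _) (int_mem_ZZ _)))
      (add_mem (mul_mem (mul_mem (nat_mem_ZZ _) (X.zz_γ _)) (mul_mem (int_mem_ZZ _) (int_mem_ZZ _)))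
        (mul_mem (mul_mem (nat_mem_ZZ _) (X.zz_tr _)) (mul_mem (int_mem_ZZ _) (int_mem_ZZ _))))
  have hN' : (N : ℝ) = (X.D : ℝ) * X.PP * (d' * m - (X.γ (X.w i) * d * m'
      + X.tr (X.w i) * d * d')) := by exact_mod_cast hN
  have e2 : (N : ℝ) = (X.D : ℝ) * X.PP * (-(d' * (d * X.y i - m))
      + X.γ (X.w i) * d * (d' * X.y (i + 1) - m')) := by
    rw [hN', X.hy i]; ring
  have hdr : |(d : ℝ)| ≤ (X.H : ℝ) ^ (h + 1) := by exact_mod_cast hd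
  have hdr' : |(d' : ℝ)| ≤ (X.H : ℝ) ^ (h + 1) := by exact_mod_cast hd'
  have hg : |(X.γ (X.w i) : ℝ)| ≤ 1 := (X.hρ _).trans X.ρ1.le
  have e3 : |(N : ℝ)| < 1 := by
    rw [e2, abs_mul, abs_of_nonneg (by positivity : (0 : ℝ) ≤ X.D * X.PP)]
    have a1 : |-((d' : ℝ) * (d * X.y i - m)) + X.γ (X.w i) * d * (d' * X.y (i + 1) - m')|
        ≤ 2 * ((X.H : ℝ) ^ (h + 1) * ε) := by
      refine (abs_add_le _ _).trans ?_
      rw [abs_neg, abs_mul, abs_mul, abs_mul]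
      have b1 : |(d' : ℝ)| * |d * X.y i - m| ≤ (X.H : ℝ) ^ (h + 1) * ε :=
        mul_le_mul hdr' h1 (abs_nonneg _) (by positivity)
      have b2 : |(X.γ (X.w i) : ℝ)| * |(d : ℝ)| ≤ 1 * (X.H : ℝ) ^ (h + 1) :=
        mul_le_mul hg hdr (abs_nonneg _) one_pos.le
      have b3 : |(X.γ (X.w i) : ℝ)| * |(d : ℝ)| * |d' * X.y (i + 1) - m'|
          ≤ 1 * (X.H : ℝ) ^ (h + 1) * ε :=
        mul_le_mul b2 h2 (abs_nonneg _) (by positivity)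
      linarith
    have hPH : (X.PP : ℝ) ≤ X.H := by
      have h3 : (X.PP : ℝ) ≤ (X.PP : ℝ) ^ 3 := le_self_pow₀ hPP (by norm_num)
      exact h3.trans X.HPr
    have hDH := X.HDr
    calc (X.D : ℝ) * X.PP * |-((d' : ℝ) * (d * X.y i - m))
          + X.γ (X.w i) * d * (d' * X.y (i + 1) - m')|
        ≤ (X.D : ℝ) * X.PP * (2 * ((X.H : ℝ) ^ (h + 1) * ε)) := by gcongr
      _ = (2 * (X.D : ℝ)) * X.PP * ((X.H : ℝ) ^ (h + 1) * ε) := by ring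
      _ ≤ X.H * X.H * ((X.H : ℝ) ^ (h + 1) * ε) := by gcongr
      _ = (X.H : ℝ) ^ (2 * h + 4) * X.ρ ^ l := by rw [hε]; ring
      _ < 1 := hl
  have e4 : |N| < 1 := by exact_mod_cast e3
  have e5 := Int.abs_lt_one_iff.1 e4
  rw [e5] at hN
  have e6 : (X.D : ℚ) * X.PP * (d' * m - (X.γ (X.w i) * d * m' + X.tr (X.w i) * d * d')) = 0 := by
    rw [← hN]; simp
  have e7 := (mul_eq_zero.1 e6).resolve_left (mul_ne_zero X.Dq_pos.ne' X.PPq_pos.ne')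
  linarith

/-- shadows along an interval -/
lemma shadow_run {l h a c : ℕ} (hl : (X.H : ℝ) ^ (2 * h + 4) * X.ρ ^ l < 1)
    (hrep : ∀ i, a ≤ i → i ≤ c → ∃ s t, i ≤ s ∧ s < t ∧ t ≤ i + h ∧ Eqv X.w l s t) (hac : a ≤ c) :
    ∃ m d m' d' : ℤ, d ≠ 0 ∧ d' ≠ 0 ∧ |m| ≤ (X.H : ℤ) ^ (h + 1) ∧ |d| ≤ (X.H : ℤ) ^ (h + 1) ∧
      |m'| ≤ (X.H : ℤ) ^ (h + 1) ∧ |d'| ≤ (X.H : ℤ) ^ (h + 1) ∧
      X.Q a c = (m : ℚ) / d - X.Γ a c * ((m' : ℚ) / d') := by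
  classical
  have h1 : ∀ i, ∃ m d : ℤ, a ≤ i → i ≤ c → (d ≠ 0 ∧ |m| ≤ (X.H : ℤ) ^ (h + 1) ∧
      |d| ≤ (X.H : ℤ) ^ (h + 1) ∧ |d * X.y i - m| ≤ (X.H : ℝ) ^ (h + 1) * X.ρ ^ l) := by
    intro i
    by_cases hi : a ≤ i ∧ i ≤ c
    · obtain ⟨s, t, h1, h2, h3, h4⟩ := hrep i hi.1 hi.2
      obtain ⟨m, d, h5⟩ := X.shadow h1 h2 h3 h4
      exact ⟨m, d, fun _ _ => h5⟩
    · exact ⟨0, 0, fun h1 h2 => absurd ⟨h1, h2⟩ hi⟩
  choose m d hmd using h1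
  have key : ∀ k, a + k ≤ c → ((m a : ℤ) : ℚ) / d a
      = X.Q a (a + k) + X.Γ a (a + k) * ((m (a + k) : ℚ) / d (a + k)) := by
    intro k
    induction k with
    | zero => intro _; simp [Q_self, Γ_self]
    | succ k ih =>
      intro hk
      have h2 := ih (by omega)
      obtain ⟨c1, c2, c3, c4⟩ := hmd (a + k) (by omega) (by omega)
      obtain ⟨e1, e2, e3, e4⟩ := hmd (a + k + 1) (by omega) (by omega)
      have h3 := X.shadow_step c3 e3 c4 e4 hl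
      have c1' : ((d (a + k) : ℤ) : ℚ) ≠ 0 := by exact_mod_cast c1
      have e1' : ((d (a + k + 1) : ℤ) : ℚ) ≠ 0 := by exact_mod_cast e1
      have h4 : (m (a + k) : ℚ) / d (a + k) = X.γ (X.w (a + k)) * ((m (a + k + 1) : ℚ)
          / d (a + k + 1)) + X.tr (X.w (a + k)) := by
        field_simp
        linear_combination h3
      rw [h2, h4, ← add_assoc, X.Q_comp (Nat.le_add_right a k) (Nat.le_succ _),
        X.Γ_comp (Nat.le_add_right a k) (Nat.le_succ (a + k)), Nat.succ_eq_add_one, X.Q_one,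
        X.Γ_one]
      ring
  obtain ⟨k, rfl⟩ := Nat.exists_eq_add_of_le hac
  obtain ⟨a1, a2, a3, _⟩ := hmd a le_rfl hac
  obtain ⟨b1, b2, b3, _⟩ := hmd (a + k) hac le_rfl
  have hk := key k le_rfl
  refine ⟨m a, d a, m (a + k), d (a + k), a1, b1, a2, a3, b2, b3, ?_⟩
  linarith

end RG

end Pool.Agent.TH634.AR
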