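import Mathlib
import Pool.Agent.TH634.AL_REPG1

set_option autoImplicit false
set_option linter.unusedSectionVars false

/-!
# Types of blocks, germs, representations (job 3436, part 2)
-/

namespace Pool.Agent.TH634.AR

open Filter Topology Pool.Agent.TH932.Abs Pool.Agent.TH932.Germs Pool.Agent.TH932.Chi
open Pool.Agent.TH932.Words Pool.Agent.TH932.Scale Pool.Agent.TH796.AL

namespace RG

variable (X : RG)

/-- the constant field -/
noncomputable abbrev K : Subfield GG := KK X.L X.tL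

lemma hC : 0 ≤ X.C := by
  have h1 := X.hcx 0
  have h2 : (1 : ℝ) ≤ X.l 0 := by exact_mod_cast X.hl1 0
  by_contra h
  push Not at h
  have h3 : (0 : ℝ) ≤ cx X.w (X.l 0) := by positivity
  nlinarith

lemma L1 (n : ℕ) : 1 ≤ X.L n := by
  have h2 : (1 : ℝ) ≤ X.l n := by exact_mod_cast X.hl1 n
  exact h2.trans (X.hlL n)

/-! ## types -/

/-- the types -/
noncomputable def ty (n : ℕ) : ℕ → Fin (X.R + 1) := (exists_ty X.w (X.l n) (X.hR n)).choose

lemma hty (n i j : ℕ) (hi : Mk X.w (X.l n) i) (hj : Mk X.w (X.l n) j)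
    (h : X.ty n i = X.ty n j) : Eqv X.w (X.l n + 1) i j :=
  (exists_ty X.w (X.l n) (X.hR n)).choose_spec i j hi hj h

/-- special positions -/
def smk (n i : ℕ) : Prop := Mk X.w (X.l n) i
/-- the next special position -/
noncomputable def nx (n i : ℕ) : ℕ := nm X.w (X.l n) i

lemma nx_spec (n i : ℕ) : i < X.nx n i ∧ X.smk n (X.nx n i) ∧
    X.nx n i ≤ i + 1 + cx X.w (X.l n) ∧ ∀ m, i < m → m < X.nx n i → ¬ X.smk n m :=
  nm_spec X.aper (X.hl1 n) i

/-- length of a type -/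
noncomputable def len (n : ℕ) (s : Fin (X.R + 1)) : ℕ := by
  classical
  exact if h : ∃ i, X.smk n i ∧ X.ty n i = s then X.nx n h.choose - h.choose else 0
/-- the translation of a type -/
noncomputable def Qs (n : ℕ) (s : Fin (X.R + 1)) : ℚ := by
  classical
  exact if h : ∃ i, X.smk n i ∧ X.ty n i = s then X.Q h.choose (X.nx n h.choose) else 0

lemma type_spec {n i : ℕ} (hi : X.smk n i) : X.nx n i = i + X.len n (X.ty n i) ∧
    X.Q i (X.nx n i) = X.Qs n (X.ty n i) := by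
  classical
  have h : ∃ j, X.smk n j ∧ X.ty n j = X.ty n i := ⟨i, hi, rfl⟩
  have h1 := h.choose_spec
  have h2 := X.hty n _ i h1.1 hi h1.2
  obtain ⟨h3, h4⟩ := type_block X.aper (X.hl1 n) h2
  obtain ⟨h5, _, _, _⟩ := X.nx_spec n h.choose
  have h7 := (X.word_dep h4).2
  have e1 : h.choose + (nm X.w (X.l n) h.choose - h.choose) = X.nx n h.choose := by
    unfold nx at *; omega
  have e2 : i + (nm X.w (X.l n) h.choose - h.choose) = X.nx n i := by
    unfold nx; omega
  rw [e1, e2] at h7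
  refine ⟨?_, ?_⟩
  · unfold len; rw [dif_pos h, ← e2]; rfl
  · unfold Qs; rw [dif_pos h]; exact h7.symm

lemma nx_le (n i : ℕ) : (X.nx n i : ℝ) ≤ i + (X.C + 1) * X.L n := by
  obtain ⟨_, _, h3, _⟩ := X.nx_spec n i
  have h4 : (cx X.w (X.l n) : ℝ) ≤ X.C * X.l n := X.hcx n
  have h5 := X.hlL n
  have h6 : (X.nx n i : ℝ) ≤ i + 1 + cx X.w (X.l n) := by exact_mod_cast h3
  have h7 := X.L1 n
  have h8 : X.C * X.l n ≤ X.C * X.L n := by have := X.hC; gcongr
  linarith

lemma len_le (n : ℕ) (s : Fin (X.R + 1)) : (X.len n s : ℝ) ≤ (X.C + 1) * X.L n := by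
  classical
  have hC := X.hC
  have hL := X.L1 n
  unfold len
  split_ifs with h
  · obtain ⟨h1, _, h3, _⟩ := X.nx_spec n h.choose
    have h4 := X.nx_le n h.choose
    rw [Nat.cast_sub h1.le]
    linarith
  · simp only [Nat.cast_zero]
    positivity

lemma Qs_le (n : ℕ) (s : Fin (X.R + 1)) : |(X.Qs n s : ℝ)| ≤ 2 * X.M ∧
    (X.D : ℚ) * (X.PP : ℚ) ^ (X.len n s) * X.Qs n s ∈ ZZ := by
  classical
  unfold Qs len
  split_ifs with h
  · obtain ⟨h1, _, h3, _⟩ := X.nx_spec n h.choose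
    exact ⟨X.Q_abs h1.le, X.zz_Q le_rfl⟩
  · have := X.M0
    refine ⟨by simpa using this, ?_⟩
    rw [mul_zero]
    exact zero_mem _

lemma exists_c (s : Fin (X.R + 1)) : ∃ t, 0 ≤ t ∧ t ≤ X.C + 1 ∧
    near X.L (fun n => (X.len n s : ℝ)) t :=
  exists_st X.tL (Eventually.of_forall fun n => ⟨by positivity, X.len_le n s⟩)

/-- asymptotic length of a type -/
noncomputable def c (s : Fin (X.R + 1)) : ℝ := (X.exists_c s).choose
lemma c_nonneg (s : Fin (X.R + 1)) : 0 ≤ X.c s := (X.exists_c s).choose_spec.1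
lemma c_near (s : Fin (X.R + 1)) : near X.L (fun n => (X.len n s : ℝ)) (X.c s) :=
  (X.exists_c s).choose_spec.2.2

lemma exists_cmin : ∃ t : ℝ, 0 < t ∧ ∀ s, 0 < X.c s → t ≤ X.c s := by
  classical
  by_cases h : (Finset.univ.filter fun s => 0 < X.c s).Nonempty
  · obtain ⟨s, hs, hmin⟩ := Finset.exists_min_image _ X.c h
    refine ⟨X.c s, (Finset.mem_filter.1 hs).2, fun s' hs' => hmin s' ?_⟩
    exact Finset.mem_filter.2 ⟨Finset.mem_univ _, hs'⟩
  · refine ⟨1, one_pos, fun s hs => ?_⟩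
    exact absurd ⟨s, Finset.mem_filter.2 ⟨Finset.mem_univ _, hs⟩⟩ h

/-- least long length -/
noncomputable def cmin : ℝ := X.exists_cmin.choose
lemma cmin_pos : 0 < X.cmin := X.exists_cmin.choose_spec.1
lemma cmin_le (s : Fin (X.R + 1)) (hs : 0 < X.c s) : X.cmin ≤ X.c s :=
  X.exists_cmin.choose_spec.2 s hs

/-- long special positions -/
def lm (n i : ℕ) : Prop := X.smk n i ∧ 0 < X.c (X.ty n i)

/-- the maximal length of a short type -/
noncomputable def gmax (n : ℕ) : ℕ := by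
  classical
  exact ∑ s : Fin (X.R + 1), if 0 < X.c s then 0 else X.len n s

lemma gmax_near : near X.L (fun n => (X.gmax n : ℝ)) 0 := by
  classical
  have h1 : ∀ T : Finset (Fin (X.R + 1)), near X.L
      (fun n => ((∑ s ∈ T, if 0 < X.c s then 0 else X.len n s : ℕ) : ℝ)) 0 := by
    intro T
    induction T using Finset.induction_on with
    | empty => simpa using near_const X.tL 0
    | insert a T ha ih =>
      have h2 : near X.L (fun n => ((if 0 < X.c a then 0 else X.len n a : ℕ) : ℝ)) 0 := by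
        by_cases h : 0 < X.c a
        · simp only [if_pos h]; simpa using near_const X.tL 0
        · simp only [if_neg h]
          have h3 := X.c_near a
          have : X.c a = 0 := le_antisymm (not_lt.1 h) (X.c_nonneg a)
          rwa [this] at h3
      have h3 := h2.add ih
      rw [add_zero] at h3
      refine h3.congr (Eventually.of_forall fun n => ?_)
      rw [Finset.sum_insert ha]
      push_cast
      rfl
  exact h1 Finset.univ

lemma short_le {n i : ℕ} (hi : X.smk n i) (hs : ¬ 0 < X.c (X.ty n i)) :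
    X.nx n i ≤ i + X.gmax n := by
  classical
  rw [(X.type_spec hi).1]
  have : X.len n (X.ty n i) ≤ X.gmax n := by
    unfold gmax
    have h1 : (if 0 < X.c (X.ty n i) then 0 else X.len n (X.ty n i)) = X.len n (X.ty n i) := if_neg hs
    rw [← h1]
    exact Finset.single_le_sum (f := fun s => if 0 < X.c s then 0 else X.len n s)
      (fun i _ => Nat.zero_le _) (Finset.mem_univ _)
  omega

/-- the window for repetitions -/
noncomputable def hh (n : ℕ) : ℕ := (X.R + 2) * X.gmax n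

lemma hh_near : near X.L (fun n => (X.hh n : ℝ)) 0 := by
  have := X.gmax_near.const_mul X.tL (X.R + 2)
  rw [mul_zero] at this
  refine this.congr (Eventually.of_forall fun n => ?_)
  unfold hh; push_cast; ring

lemma reps {n a B : ℕ} (ha : X.smk n a) (hsh : ∀ m, a ≤ m → m < B → ¬ X.lm n m) {i : ℕ}
    (hai : a ≤ i) (hiB : i + X.hh n < B) :
    ∃ s t, i ≤ s ∧ s < t ∧ t ≤ i + X.hh n ∧ Eqv X.w (X.l n) s t := by
  refine Pool.Agent.TH932.Orb.rep X.aper (X.hl1 n) (r := X.R + 1) (ty := X.ty n) (X.hty n)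
    (g := X.gmax n) (a := a) (B := B) ha ?_ hai hiB
  intro m h1 h2 h3
  apply X.short_le h3
  intro h4
  exact hsh m h1 h2 ⟨h3, h4⟩

/-- the size condition for shadows -/
lemma size_ok : ∀ᶠ n in (UU : Filter ℕ), (X.H : ℝ) ^ (2 * X.hh n + 4) * X.ρ ^ (X.l n) < 1 := by
  have hH : (1 : ℝ) < X.H := by have := X.Hr; linarith
  have hlH : 0 < Real.log X.H := Real.log_pos hH
  have hlam := X.lam_pos
  have hH0 : (0 : ℝ) < X.H := by linarith
  filter_upwards [X.hh_near (X.lam / (16 * Real.log X.H)) (by positivity),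
    ev_of_atTop (X.tL.eventually_ge_atTop (16 * Real.log X.H / X.lam))]
    with n h1 h2
  have h3 := (abs_le.1 h1).2
  have h4 := X.hLl n
  have h5 := X.L1 n
  simp only [zero_mul, sub_zero] at h3
  rw [div_le_iff₀ hlam] at h2
  rw [X.ρ_pow]
  have e1 : (X.H : ℝ) ^ (2 * X.hh n + 4) = Real.exp ((2 * X.hh n + 4) * Real.log X.H) := by
    have : ((2 * (X.hh n : ℝ) + 4)) = ((2 * X.hh n + 4 : ℕ) : ℝ) := by push_cast; ring
    rw [this, Real.exp_nat_mul, Real.exp_log hH0]
  rw [e1, ← Real.exp_add, Real.exp_lt_one_iff]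
  have h6 : (X.hh n : ℝ) * Real.log X.H ≤ X.lam / 16 * X.L n := by
    calc (X.hh n : ℝ) * Real.log X.H ≤ X.lam / (16 * Real.log X.H) * X.L n * Real.log X.H := by
          gcongr
      _ = X.lam / 16 * X.L n := by field_simp
  have h7 : X.lam * X.L n ≤ X.lam * (2 * X.l n) := by gcongr
  have h8 : 0 < X.lam * X.L n := by positivity
  nlinarith

/-! ## germs -/

/-- germ of a product -/
noncomputable def NA (a c : ℕ → ℕ) : GG := gm fun n => X.Γ (a n) (c n)
/-- germ of a block -/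
noncomputable def QA (a c : ℕ → ℕ) : GG := gm fun n => X.Q (a n) (c n)

lemma comp {a c d : ℕ → ℕ} (hac : ∀ᶠ n in (UU : Filter ℕ), a n ≤ c n)
    (hcd : ∀ᶠ n in (UU : Filter ℕ), c n ≤ d n) :
    X.QA a d = X.QA a c + X.NA a c * X.QA c d := by
  unfold NA QA
  rw [gm_mul, gm_add, gm_eq]
  filter_upwards [hac, hcd] with n h1 h2
  exact X.Q_comp h1 h2

/-- sums of exponents -/
noncomputable def ex (i : Fin X.m) (a c : ℕ) : ℤ := ∑ k ∈ Finset.Ico a c, X.e (X.w k) i

lemma ex_abs (i : Fin X.m) (a c : ℕ) : |X.ex i a c| ≤ X.E * c := by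
  unfold ex
  refine (Finset.abs_sum_le_sum_abs _ _).trans ?_
  have h1 : ∑ k ∈ Finset.Ico a c, |X.e (X.w k) i| ≤ ∑ _k ∈ Finset.Ico a c, (X.E : ℤ) :=
    Finset.sum_le_sum fun k _ => X.hE _ _
  refine h1.trans ?_
  rw [Finset.sum_const, Nat.card_Ico, nsmul_eq_mul, mul_comm]
  have h2 : ((c - a : ℕ) : ℤ) ≤ c := by omega
  gcongr

lemma Γ_abs_eq (a c : ℕ) : |X.Γ a c| = ∏ i, (X.B.P i : ℚ) ^ X.ex i a c := by
  unfold Γ ex
  rw [Finset.abs_prod]
  have h1 : ∀ i, (X.B.P i : ℚ) ^ (∑ k ∈ Finset.Ico a c, X.e (X.w k) i)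
      = ∏ k ∈ Finset.Ico a c, (X.B.P i : ℚ) ^ (X.e (X.w k) i) := by
    intro i
    classical
    induction Finset.Ico a c using Finset.induction_on with
    | empty => simp
    | insert b s hb ih => rw [Finset.sum_insert hb, Finset.prod_insert hb, zpow_add₀ (X.B.q0 i), ih]
  simp only [h1]
  rw [Finset.prod_comm]
  exact Finset.prod_congr rfl fun k _ => X.he _

/-- germs of signs -/
lemma sign_const (f : ℕ → ℚ) : ∃ κ : X.K, κ ≠ 0 ∧ gm f = (κ : GG) * gm (fun n => |f n|) := by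
  classical
  set σ : ℕ → ℤ := fun n => if 0 ≤ f n then 1 else -1 with hσ
  have hn : Negl X.L σ := by
    intro ε hε
    filter_upwards [L_nonneg X.tL] with n hn
    have h1 : |(σ n : ℝ)| = 1 := by
      simp only [hσ]
      split_ifs <;> simp
    rw [h1]
    exact Real.one_le_exp (by positivity)
  have hσ0 : ∀ n, σ n ≠ 0 := by
    intro n
    simp only [hσ]
    split_ifs <;> norm_num
  have hmem : gm (fun n => (σ n : ℚ)) ∈ X.K := by
    refine ⟨σ, fun _ => 1, hn, Negl.one X.tL, by simp, ?_⟩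
    congr 1; funext n; simp
  refine ⟨⟨_, hmem⟩, ?_, ?_⟩
  · intro h
    have h1 : gm (fun n => (σ n : ℚ)) = 0 := congrArg Subtype.val h
    have h2 : gm (fun n => (σ n : ℚ)) ≠ 0 := by
      rw [gm_ne_zero]
      exact Eventually.of_forall fun n => by exact_mod_cast hσ0 n
    exact h2 h1
  · change gm f = gm (fun n => (σ n : ℚ)) * gm (fun n => |f n|)
    rw [gm_mul]
    congr 1
    funext n
    simp only [hσ]
    split_ifs with h
    · rw [abs_of_nonneg h]; simp
    · rw [abs_of_neg (not_le.1 h)]; simp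

lemma NA_const {a c : ℕ → ℕ} {A : ℝ} (hA : ∀ᶠ n in (UU : Filter ℕ), (c n : ℝ) ≤ A * X.L n) :
    ∃ (κ : X.K) (g : Fin X.m → ℝ), κ ≠ 0 ∧ X.NA a c = (κ : GG) * ch X.B X.tL g := by
  classical
  obtain ⟨κ1, hκ1, h1⟩ := X.sign_const fun n => X.Γ (a n) (c n)
  -- exponents
  have h2 : ∀ i : Fin X.m, ∃ t : ℝ, ∀ ε : ℝ, 0 < ε → ∀ᶠ n in (UU : Filter ℕ),
      |((X.ex i (a n) (c n) : ℤ) : ℝ) - t * X.L n| ≤ ε * X.L n := by
    intro i
    have hb : ∀ᶠ n in (UU : Filter ℕ), |((X.ex i (a n) (c n) : ℤ) : ℝ)| ≤ X.E * A * X.L n := by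
      filter_upwards [hA] with n hn
      have h3 : |((X.ex i (a n) (c n) : ℤ) : ℝ)| ≤ X.E * c n := by exact_mod_cast X.ex_abs i (a n) (c n)
      calc |((X.ex i (a n) (c n) : ℤ) : ℝ)| ≤ X.E * c n := h3
        _ ≤ X.E * (A * X.L n) := by gcongr
        _ = X.E * A * X.L n := by ring
    obtain ⟨t, _, _, ht⟩ := exists_st (L := X.L) X.tL
      (a := fun n => ((X.ex i (a n) (c n) : ℤ) : ℝ) + X.E * A * X.L n) (A := 2 * (X.E * A)) (by
        filter_upwards [hb] with n hn
        have h4 := abs_le.1 hn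
        constructor
        · linarith
        · linarith)
    refine ⟨t - X.E * A, fun ε hε => ?_⟩
    filter_upwards [ht ε hε] with n hn
    have e1 : ((X.ex i (a n) (c n) : ℤ) : ℝ) - (t - X.E * A) * X.L n
        = ((X.ex i (a n) (c n) : ℤ) : ℝ) + X.E * A * X.L n - t * X.L n := by ring
    rw [e1]; exact hn
  choose g hg using h2
  obtain ⟨κ2, hκ2, h3⟩ := exists_const (B := X.B) X.tL g (fun n i => X.ex i (a n) (c n)) hg
  refine ⟨κ1 * κ2, g, mul_ne_zero hκ1 hκ2, ?_⟩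
  unfold NA
  rw [h1]
  have e2 : gm (fun n => |X.Γ (a n) (c n)|) = (κ2 : GG) * ch X.B X.tL g := by
    rw [← h3]
    congr 1
    funext n
    exact X.Γ_abs_eq _ _
  rw [e2]
  push_cast
  ring

/-- negligible powers -/
lemma negl_pow {h : ℕ → ℕ} (hh : near X.L (fun n => (h n : ℝ)) 0) {m : ℕ → ℤ}
    (hm : ∀ᶠ n in (UU : Filter ℕ), |m n| ≤ (X.H : ℤ) ^ (h n + 1)) : Negl X.L m := by
  have hH : (1 : ℝ) < X.H := by have := X.Hr; linarith
  have hH0 : (0 : ℝ) < X.H := by linarith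
  apply negl_of_le X.tL (M := X.H) hH.le hh hH0
  filter_upwards [hm] with n hn
  have h1 : |(m n : ℝ)| ≤ (X.H : ℝ) ^ (h n + 1) := by exact_mod_cast hn
  refine h1.trans (le_of_eq ?_)
  rw [pow_succ', ← Real.rpow_natCast, Real.rpow_def_of_pos hH0]

/-- blocks of negligible length are constants -/
lemma QA_const {a c : ℕ → ℕ} (hac : ∀ᶠ n in (UU : Filter ℕ), a n ≤ c n)
    (ht : near X.L (fun n => (c n : ℝ) - a n) 0) : X.QA a c ∈ X.K := by
  have ht' : near X.L (fun n => ((c n - a n : ℕ) : ℝ)) 0 :=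
    ht.congr (by filter_upwards [hac] with n hn; rw [Nat.cast_sub hn])
  have hz : ∀ n, ∃ z : ℤ, (z : ℚ) = (X.D : ℚ) * (X.PP : ℚ) ^ (c n - a n) * X.Q (a n) (c n) :=
    fun n => X.zz_Q le_rfl
  choose z hz using hz
  have hPP := X.PPr_one
  have hD := X.Dr1
  have hkey : ∀ n, ∀ A : ℝ, 0 ≤ A → A ≤ X.H → A * (X.PP : ℝ) ^ (c n - a n)
      ≤ (X.H : ℝ) ^ (c n - a n + 1) := by
    intro n A hA hAH
    have h1 : (X.PP : ℝ) ^ (c n - a n) ≤ (X.PP : ℝ) ^ (3 * (c n - a n)) :=
      pow_le_pow_right₀ hPP (by omega)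
    calc A * (X.PP : ℝ) ^ (c n - a n) ≤ A * (X.PP : ℝ) ^ (3 * (c n - a n)) := by gcongr
      _ ≤ _ := X.key_bound hA hAH _
  refine ⟨z, fun n => (X.D : ℤ) * (X.PP : ℤ) ^ (c n - a n),
    X.negl_pow ht' ?_, X.negl_pow ht' ?_, ?_, ?_⟩
  · filter_upwards [hac] with n hn
    have h1 : (z n : ℝ) = (X.D : ℝ) * (X.PP : ℝ) ^ (c n - a n) * X.Q (a n) (c n) := by
      exact_mod_cast hz n
    have h2 : |(z n : ℝ)| ≤ (X.H : ℝ) ^ (c n - a n + 1) := by
      rw [h1, abs_mul, abs_of_nonneg (by positivity)]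
      have h3 := X.Q_abs hn
      have h4 := X.HM
      have h5 := X.M0
      calc (X.D : ℝ) * (X.PP : ℝ) ^ (c n - a n) * |(X.Q (a n) (c n) : ℝ)|
          ≤ (X.D : ℝ) * (X.PP : ℝ) ^ (c n - a n) * (2 * X.M) := by gcongr
        _ = (2 * X.M * X.D) * (X.PP : ℝ) ^ (c n - a n) := by ring
        _ ≤ _ := hkey n _ (by positivity) (by nlinarith)
    exact_mod_cast h2
  · refine Eventually.of_forall fun n => ?_
    have h2 : |(((X.D : ℤ) * (X.PP : ℤ) ^ (c n - a n) : ℤ) : ℝ)| ≤ (X.H : ℝ) ^ (c n - a n + 1) := by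
      push_cast
      rw [abs_of_nonneg (by positivity)]
      exact hkey n _ (by positivity) (by have := X.HDr; linarith)
    exact_mod_cast h2
  · refine Eventually.of_forall fun n => ?_
    have h1 := X.D1
    have h2 := X.PP_pos
    positivity
  · unfold QA
    congr 1
    funext n
    rw [hz n]
    have h1 := X.Dq_pos.ne'
    have h2 := X.PPq_pos.ne'
    push_cast
    field_simp

/-- the generators -/
noncomputable def zf : Option (Option (Fin (X.R + 1))) → GG
  | none => 1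
  | some none => X.QA (fun _ => 0) (fun n => X.nx n 0)
  | some (some s) => gm fun n => X.Qs n s

/-- combinations of the generators -/
def RepE (S : GG) : Prop := ∃ P : Option (Option (Fin (X.R + 1))) → Rg X.m X.tL,
  S = ∑ j, ev X.B X.tL (P j) * X.zf j

variable {X}

lemma RepE.add {S T : GG} (hS : X.RepE S) (hT : X.RepE T) : X.RepE (S + T) := by
  obtain ⟨P, h2⟩ := hS
  obtain ⟨P', h2'⟩ := hT
  refine ⟨fun j => P j + P' j, ?_⟩
  rw [h2, h2', ← Finset.sum_add_distrib]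
  refine Finset.sum_congr rfl fun j _ => ?_
  rw [map_add, add_mul]

lemma RepE.mul {S : GG} (hS : X.RepE S) (κ : X.K) (g : Fin X.m → ℝ) :
    X.RepE ((κ : GG) * ch X.B X.tL g * S) := by
  obtain ⟨P, h2⟩ := hS
  refine ⟨fun j => AddMonoidAlgebra.single g κ * P j, ?_⟩
  rw [h2, Finset.mul_sum]
  refine Finset.sum_congr rfl fun j _ => ?_
  rw [map_mul, ev_single]
  ring

lemma RepE.const (κ : X.K) : X.RepE (κ : GG) := by
  classical
  refine ⟨fun j => if j = none then AddMonoidAlgebra.single 0 κ else 0, ?_⟩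
  have h1 : ∀ j : Option (Option (Fin (X.R + 1))), ev X.B X.tL (if j = none then
      AddMonoidAlgebra.single 0 κ else 0) * X.zf j = if j = none then (κ : GG) else 0 := by
    intro j
    split_ifs with h
    · rw [h, ev_single, ch_zero]; simp [zf]
    · rw [map_zero, zero_mul]
  simp only [h1]
  rw [Finset.sum_ite_eq' Finset.univ none]
  simp

lemma RepE.gen (i : Option (Option (Fin (X.R + 1)))) : X.RepE (X.zf i) := by
  classical
  refine ⟨fun j => if j = i then 1 else 0, ?_⟩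
  have h1 : ∀ j : Option (Option (Fin (X.R + 1))), ev X.B X.tL (if j = i then 1 else 0)
      * X.zf j = if j = i then X.zf i else 0 := by
    intro j
    split_ifs with h
    · rw [h, map_one, one_mul]
    · rw [map_zero, zero_mul]
  simp only [h1]
  rw [Finset.sum_ite_eq' Finset.univ i]
  simp

lemma RepE.neg {S : GG} (hS : X.RepE S) : X.RepE (-S) := by
  have := hS.mul (-1) 0
  rw [ch_zero] at this
  simpa using this

variable (X)

/-- shadows cover the part before a position without long special positions in between -/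
lemma shadow_part {a m : ℕ → ℕ} (ha : ∀ n, X.smk n (a n))
    (ham : ∀ᶠ n in (UU : Filter ℕ), a n ≤ m n)
    (hsh : ∀ᶠ n in (UU : Filter ℕ), ∀ m', a n ≤ m' → m' < m n → ¬ X.lm n m') :
    ∃ c : ℕ → ℕ, (∀ᶠ n in (UU : Filter ℕ), a n ≤ c n) ∧ (∀ᶠ n in (UU : Filter ℕ), c n ≤ m n) ∧
      near X.L (fun n => (m n : ℝ) - c n) 0 ∧
      ∃ f f' : X.K, X.QA a c = f - X.NA a c * f' := by
  classical
  set c : ℕ → ℕ := fun n => if a n + X.hh n < m n then m n - X.hh n - 1 else a n with hc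
  have h1 : ∀ᶠ n in (UU : Filter ℕ), a n ≤ c n := by
    filter_upwards [ham] with n h
    simp only [hc]
    split_ifs with h2 <;> omega
  have h2 : ∀ᶠ n in (UU : Filter ℕ), c n ≤ m n := by
    filter_upwards [ham] with n h
    simp only [hc]
    split_ifs with h2 <;> omega
  refine ⟨c, h1, h2, ?_, ?_⟩
  · have h3 := X.hh_near.add (near_const X.tL 1)
    rw [zero_add] at h3
    apply near_zero_of_le h3
    filter_upwards [ham] with n h
    have h4 : m n ≤ c n + X.hh n + 1 := by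
      simp only [hc]
      split_ifs with h2 <;> omega
    have h5 : c n ≤ m n := by
      simp only [hc]
      split_ifs with h2 <;> omega
    have h4' : (m n : ℝ) ≤ c n + X.hh n + 1 := by exact_mod_cast h4
    have h5' : (c n : ℝ) ≤ m n := by exact_mod_cast h5
    rw [abs_of_nonneg (by linarith), abs_of_nonneg (by positivity)]
    linarith
  · -- shadows
    have hb1 : ∀ n, (1 : ℤ) ≤ (X.H : ℤ) ^ (X.hh n + 1) := fun n => by
      have := X.H2
      have h6 : (0 : ℤ) < (X.H : ℤ) ^ (X.hh n + 1) := by positivity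
      omega
    have hex : ∀ n, ∃ v w v' w' : ℤ, (a n ≤ m n ∧ (∀ m', a n ≤ m' → m' < m n → ¬ X.lm n m') ∧
        (X.H : ℝ) ^ (2 * X.hh n + 4) * X.ρ ^ (X.l n) < 1) →
        (w ≠ 0 ∧ w' ≠ 0 ∧ |v| ≤ (X.H : ℤ) ^ (X.hh n + 1) ∧ |w| ≤ (X.H : ℤ) ^ (X.hh n + 1) ∧
          |v'| ≤ (X.H : ℤ) ^ (X.hh n + 1) ∧ |w'| ≤ (X.H : ℤ) ^ (X.hh n + 1) ∧
          X.Q (a n) (c n) = (v : ℚ) / w - X.Γ (a n) (c n) * ((v' : ℚ) / w')) := by
      intro n
      by_cases hg : (a n ≤ m n ∧ (∀ m', a n ≤ m' → m' < m n → ¬ X.lm n m') ∧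
        (X.H : ℝ) ^ (2 * X.hh n + 4) * X.ρ ^ (X.l n) < 1)
      · obtain ⟨g1, g2, g3⟩ := hg
        by_cases hcase : a n + X.hh n < m n
        · have hbn : c n = m n - X.hh n - 1 := by simp only [hc]; rw [if_pos hcase]
          obtain ⟨v, w, v', w', k1, k2, k3, k4, k5, k6, k7⟩ :=
            X.shadow_run (a := a n) (c := c n) g3
            (fun i hi1 hi2 => X.reps (ha n) g2 hi1 (by omega)) (by omega)
          exact ⟨v, w, v', w', fun _ => ⟨k1, k2, k3, k4, k5, k6, k7⟩⟩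
        · have hbn : c n = a n := by simp only [hc]; rw [if_neg hcase]
          have := hb1 n
          refine ⟨0, 1, 0, 1, fun _ => ⟨one_ne_zero, one_ne_zero, ?_, ?_, ?_, ?_, ?_⟩⟩
          · rw [abs_zero]; linarith
          · rw [abs_one]; linarith
          · rw [abs_zero]; linarith
          · rw [abs_one]; linarith
          · rw [hbn, X.Q_self]; simp
      · exact ⟨0, 0, 0, 0, fun h => absurd h hg⟩
    choose v w v' w' hvw using hex
    have hgood : ∀ᶠ n in (UU : Filter ℕ), (w n ≠ 0 ∧ w' n ≠ 0 ∧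
        |v n| ≤ (X.H : ℤ) ^ (X.hh n + 1) ∧ |w n| ≤ (X.H : ℤ) ^ (X.hh n + 1) ∧
        |v' n| ≤ (X.H : ℤ) ^ (X.hh n + 1) ∧ |w' n| ≤ (X.H : ℤ) ^ (X.hh n + 1) ∧
          X.Q (a n) (c n) = (v n : ℚ) / w n - X.Γ (a n) (c n) * ((v' n : ℚ) / w' n)) := by
      filter_upwards [ham, hsh, X.size_ok] with n g1 g2 g3 using hvw n ⟨g1, g2, g3⟩
    have hf : gm (fun n => (v n : ℚ) / w n) ∈ X.K :=
      ⟨v, w, X.negl_pow X.hh_near (hgood.mono fun n h => h.2.2.1),
        X.negl_pow X.hh_near (hgood.mono fun n h => h.2.2.2.1),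
        hgood.mono fun n h => h.1, rfl⟩
    have hf' : gm (fun n => (v' n : ℚ) / w' n) ∈ X.K :=
      ⟨v', w', X.negl_pow X.hh_near (hgood.mono fun n h => h.2.2.2.2.1),
        X.negl_pow X.hh_near (hgood.mono fun n h => h.2.2.2.2.2.1),
        hgood.mono fun n h => h.2.1, rfl⟩
    refine ⟨⟨_, hf⟩, ⟨_, hf'⟩, ?_⟩
    unfold QA NA
    change _ = gm _ - gm _ * gm _
    rw [gm_mul, gm_sub, gm_eq]
    filter_upwards [hgood] with n hn
    exact hn.2.2.2.2.2.2

end RG

end Pool.Agent.TH634.AR
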