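import Mathlib
import Pool.Agent.TH634.AL_REPG2

set_option autoImplicit false
set_option linter.unusedSectionVars false

/-!
# Numbers with addresses of linear complexity are represented (job 3436)
-/

namespace Pool.Agent.TH634.AR

open Filter Topology Pool.Agent.TH932.Abs Pool.Agent.TH932.Germs Pool.Agent.TH932.Chi
open Pool.Agent.TH932.Words Pool.Agent.TH932.Scale Pool.Agent.TH796.AL

namespace RG

variable (X : RG)

/-- the size parameter -/
noncomputable def SZ : ℝ := X.E * (X.C + 1) * ∑ i, Real.log (X.B.P i)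

lemma SZ_le (i : Fin X.m) : X.E * (X.C + 1) * Real.log (X.B.P i) ≤ X.SZ := by
  have hC := X.hC
  unfold SZ
  have h1 : Real.log (X.B.P i) ≤ ∑ i, Real.log (X.B.P i) :=
    Finset.single_le_sum (f := fun i => Real.log (X.B.P i)) (fun i _ => (X.B.log_pos i).le)
      (Finset.mem_univ i)
  gcongr

lemma SZ_nonneg : 0 ≤ X.SZ := by
  have hC := X.hC
  unfold SZ
  have h1 : 0 ≤ ∑ i, Real.log (X.B.P i) := Finset.sum_nonneg fun i _ => (X.B.log_pos i).le
  positivity

lemma ev_D {ε : ℝ} (hε : 0 < ε) : ∀ᶠ n in (UU : Filter ℕ), (X.D : ℝ) ≤ Real.exp (ε * X.L n) := by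
  filter_upwards [ev_of_atTop (X.tL.eventually_ge_atTop (Real.log X.D / ε))] with n hn
  rw [div_le_iff₀ hε] at hn
  have hD := X.Dr1
  calc (X.D : ℝ) = Real.exp (Real.log X.D) := (Real.exp_log (by linarith)).symm
    _ ≤ _ := Real.exp_le_exp.2 (by linarith)

/-- germs of blocks are integral up to the primes of the base -/
lemma block_RS {q : ℕ → ℚ} {h : ℕ → ℕ}
    (hz : ∀ n, (X.D : ℚ) * (X.PP : ℚ) ^ (h n) * q n ∈ ZZ)
    (hh : ∀ n, (h n : ℝ) ≤ (X.C + 1) * X.L n) :
    gm q ∈ SS X.L (RS X.B) (-X.SZ) := by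
  rw [mem_SS]
  intro ε hε
  filter_upwards [L_nonneg X.tL, X.ev_D hε] with n h1 h2
  obtain ⟨z, hz⟩ := hz n
  have hz' : (z : ℚ) = (X.D : ℚ) * (X.PP : ℚ) ^ (h n) * q n := hz
  refine ⟨X.D, z, fun _ => -((X.E * h n : ℕ) : ℤ), by have := X.D1; omega, ?_, ?_, fun i => ?_⟩
  · have h3 : |((X.D : ℤ) : ℝ)| = X.D := by
      rw [Int.cast_natCast, abs_of_nonneg (by positivity)]
    rw [h3]; exact h2
  · have e1 : ∏ i, (X.B.P i : ℚ) ^ (-((X.E * h n : ℕ) : ℤ)) = ((X.PP : ℚ) ^ (h n))⁻¹ := by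
      unfold PP
      push_cast
      rw [← Finset.prod_pow, ← Finset.prod_inv_distrib]
      refine Finset.prod_congr rfl fun i _ => ?_
      rw [zpow_neg, ← pow_mul]
      congr 1
    have h4 := X.PPq_pos
    rw [e1, hz']
    push_cast
    field_simp
  · have h3 := X.SZ_le i
    have h4 := hh n
    have h5 := X.B.log_pos i
    have h6 : ((X.E * h n : ℕ) : ℝ) * Real.log (X.B.P i) ≤ X.SZ * X.L n := by
      push_cast
      calc (X.E : ℝ) * h n * Real.log (X.B.P i)
          ≤ X.E * ((X.C + 1) * X.L n) * Real.log (X.B.P i) := by gcongr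
        _ = X.E * (X.C + 1) * Real.log (X.B.P i) * X.L n := by ring
        _ ≤ X.SZ * X.L n := by gcongr
    have h7 : 0 ≤ ε * X.L n := by positivity
    push_cast at h6 ⊢
    linarith

/-- germs of blocks are bounded at all places -/
lemma block_mem {q : ℕ → ℚ} {h : ℕ → ℕ}
    (hz : ∀ n, (X.D : ℚ) * (X.PP : ℚ) ^ (h n) * q n ∈ ZZ)
    (hh : ∀ n, (h n : ℝ) ≤ (X.C + 1) * X.L n) (hq : ∀ n, |(q n : ℝ)| ≤ 2 * X.M)
    (v : Option (Fin X.m)) : gm q ∈ Sv X.B X.L v (-X.SZ) := by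
  cases v with
  | some v =>
    have h1 := X.block_RS hz hh
    rw [mem_SS] at h1
    unfold Sv
    rw [mem_SS]
    intro ε hε
    filter_upwards [h1 ε hε] with n hn using Rb_of_RS v hn
  | none =>
    unfold Sv
    rw [mem_SS]
    intro ε hε
    have hM := X.M0
    filter_upwards [L_nonneg X.tL,
      ev_of_atTop (X.tL.eventually_ge_atTop (Real.log (2 * X.M + 1) / ε))] with n h1 h2
    rw [div_le_iff₀ hε] at h2
    change Rinf _ _ _ _
    unfold Rinf
    have h3 := X.SZ_nonneg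
    have h4 : 0 ≤ X.SZ * X.L n := by positivity
    calc |(q n : ℝ)| ≤ 2 * X.M + 1 := by have := hq n; linarith
      _ = Real.exp (Real.log (2 * X.M + 1)) := (Real.exp_log (by positivity)).symm
      _ ≤ _ := Real.exp_le_exp.2 (by linarith)

lemma nx0_le (n : ℕ) : (X.nx n 0 : ℝ) ≤ (X.C + 1) * X.L n := by
  have := X.nx_le n 0
  simpa using this

lemma zf_mem (v : Option (Fin X.m)) (j : Option (Option (Fin (X.R + 1)))) :
    X.zf j ∈ Sv X.B X.L v (-X.SZ) := by
  match j with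
  | none =>
    have hF := filt_v (B := X.B) X.tL v
    have := hF.alg_mem 1
    rw [map_one] at this
    exact hF.anti (by have := X.SZ_nonneg; linarith) this
  | some none =>
    exact X.block_mem (q := fun n => X.Q 0 (X.nx n 0)) (h := fun n => X.nx n 0)
      (fun n => X.zz_Q (by simp)) X.nx0_le (fun n => X.Q_abs (Nat.zero_le _)) v
  | some (some s) =>
    exact X.block_mem (fun n => (X.Qs_le n s).2) (fun n => X.len_le n s)
      (fun n => (X.Qs_le n s).1) v

lemma zf_sint (j : Option (Option (Fin (X.R + 1)))) : Sint X.B X.L (X.zf j) := by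
  match j with
  | none =>
    have := Sint.alg (B := X.B) X.tL 1
    simpa [zf] using this
  | some none =>
    exact ⟨_, X.block_RS (q := fun n => X.Q 0 (X.nx n 0)) (h := fun n => X.nx n 0)
      (fun n => X.zz_Q (by simp)) X.nx0_le⟩
  | some (some s) =>
    exact ⟨_, X.block_RS (fun n => (X.Qs_le n s).2) (fun n => X.len_le n s)⟩

/-- the next long special position from `a` -/
noncomputable def Mn (n a : ℕ) : ℕ := by
  classical
  exact if h : ∃ m, X.lm n m ∧ a ≤ m then Nat.find h else a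

lemma Mn_spec {n a m0 : ℕ} (h0 : X.lm n m0) (h1 : a ≤ m0) : X.lm n (X.Mn n a) ∧ a ≤ X.Mn n a ∧
    (∀ m, a ≤ m → m < X.Mn n a → ¬ X.lm n m) ∧ X.Mn n a ≤ m0 := by
  classical
  have h : ∃ m, X.lm n m ∧ a ≤ m := ⟨m0, h0, h1⟩
  have e : X.Mn n a = Nat.find h := by unfold Mn; rw [dif_pos h]
  rw [e]
  refine ⟨(Nat.find_spec h).1, (Nat.find_spec h).2, fun m h2 h3 h4 => ?_, Nat.find_min' h ⟨h0, h1⟩⟩
  exact Nat.find_min h h3 ⟨h4, h2⟩

/-- truncations -/
noncomputable def T (a : ℕ → ℕ) : GG := X.QA (fun _ => 0) a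

/-- approximations of every order -/
def Done : Prop := ∀ E : ℝ, ∃ S : GG, X.RepE S ∧ ∃ s : ℕ → ℚ, S = gm s ∧
  ∀ᶠ n in (UU : Filter ℕ), |X.y 0 - s n| ≤ Real.exp (-(E * X.L n))

lemma trunc (a : ℕ) : |X.y 0 - X.Q 0 a| ≤ X.M * Real.exp (-(X.lam * a)) := by
  have h1 := X.y_rec (Nat.zero_le a)
  have e1 : X.y 0 - X.Q 0 a = X.Γ 0 a * X.y a := by linarith
  rw [e1, abs_mul, ← X.ρ_pow, mul_comm]
  have h2 := X.Γ_abs 0 a
  rw [Nat.sub_zero] at h2
  exact mul_le_mul (X.hM a) h2 (abs_nonneg _) X.M0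

lemma done_of {a : ℕ → ℕ} (ha : X.RepE (X.T a)) {E : ℝ}
    (hE : ∀ᶠ n in (UU : Filter ℕ), (E + 1) * X.L n ≤ X.lam * a n) :
    ∃ S : GG, X.RepE S ∧ ∃ s : ℕ → ℚ, S = gm s ∧
      ∀ᶠ n in (UU : Filter ℕ), |X.y 0 - s n| ≤ Real.exp (-(E * X.L n)) := by
  refine ⟨_, ha, fun n => X.Q 0 (a n), rfl, ?_⟩
  have hM := X.M0
  filter_upwards [hE, ev_of_atTop (X.tL.eventually_ge_atTop (Real.log (X.M + 1)))] with n hn h2
  refine (X.trunc (a n)).trans ?_
  calc X.M * Real.exp (-(X.lam * a n)) ≤ (X.M + 1) * Real.exp (-(X.lam * a n)) := by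
        gcongr; linarith
    _ = Real.exp (Real.log (X.M + 1)) * Real.exp (-(X.lam * a n)) := by
        rw [Real.exp_log (by positivity)]
    _ = Real.exp (Real.log (X.M + 1) + -(X.lam * a n)) := (Real.exp_add _ _).symm
    _ ≤ _ := Real.exp_le_exp.2 (by linarith)

/-- multiplication by the germ of a product -/
lemma RepE_NA {a c : ℕ → ℕ} {A : ℝ} (hA : ∀ᶠ n in (UU : Filter ℕ), (c n : ℝ) ≤ A * X.L n)
    {S : GG} (hS : X.RepE S) : X.RepE (X.NA a c * S) := by
  obtain ⟨κ, g, _, h⟩ := X.NA_const (a := a) hA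
  rw [h]
  exact hS.mul κ g

/-- one stage of the chain -/
lemma stage {a : ℕ → ℕ} {t A : ℝ} (hsm : ∀ n, X.smk n (a n)) (hr : X.RepE (X.T a))
    (hA : ∀ᶠ n in (UU : Filter ℕ), (a n : ℝ) ≤ A * X.L n)
    (ht : near X.L (fun n => (a n : ℝ)) t) : X.Done ∨
    ∃ (a' : ℕ → ℕ) (t' A' : ℝ), (∀ n, X.smk n (a' n)) ∧ X.RepE (X.T a') ∧
      (∀ᶠ n in (UU : Filter ℕ), (a' n : ℝ) ≤ A' * X.L n) ∧
      near X.L (fun n => (a' n : ℝ)) t' ∧ t + X.cmin ≤ t' := by
  classical
  by_cases hI : ∃ A1 : ℝ, ∀ᶠ n in (UU : Filter ℕ), ∃ m, X.lm n m ∧ a n ≤ m ∧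
      (m : ℝ) ≤ A1 * X.L n
  · -- there is a next long special position
    right
    obtain ⟨A1, hA1⟩ := hI
    set m : ℕ → ℕ := fun n => X.Mn n (a n) with hm
    have hst : ∀ᶠ n in (UU : Filter ℕ), X.lm n (m n) ∧ a n ≤ m n ∧
        (∀ m', a n ≤ m' → m' < m n → ¬ X.lm n m') ∧ (m n : ℝ) ≤ A1 * X.L n := by
      filter_upwards [hA1] with n hn
      obtain ⟨m0, h1, h2, h3⟩ := hn
      obtain ⟨g1, g2, g3, g4⟩ := X.Mn_spec h1 h2
      refine ⟨g1, g2, g3, ?_⟩
      have : (m n : ℝ) ≤ m0 := by exact_mod_cast g4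
      linarith
    set a' : ℕ → ℕ := fun n => X.nx n (m n) with ha'
    have hlm : ∀ᶠ n in (UU : Filter ℕ), X.lm n (m n) := hst.mono fun n h => h.1
    have ham : ∀ᶠ n in (UU : Filter ℕ), a n ≤ m n := hst.mono fun n h => h.2.1
    have hma : ∀ᶠ n in (UU : Filter ℕ), m n ≤ a' n :=
      Eventually.of_forall fun n => (X.nx_spec n (m n)).1.le
    have haa : ∀ᶠ n in (UU : Filter ℕ), a n ≤ a' n := by
      filter_upwards [ham, hma] with n h1 h2 using h1.trans h2
    have hmA : ∀ᶠ n in (UU : Filter ℕ), (m n : ℝ) ≤ A1 * X.L n := hst.mono fun n h => h.2.2.2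
    have haA : ∀ᶠ n in (UU : Filter ℕ), (a' n : ℝ) ≤ (A1 + (X.C + 1)) * X.L n := by
      filter_upwards [hmA] with n h1
      have := X.nx_le n (m n)
      simp only [ha']
      linarith
    -- the type
    obtain ⟨s, hs⟩ : ∃ s, ∀ᶠ n in (UU : Filter ℕ), X.ty n (m n) = s := by
      have h1 : (⋃ s ∈ (Set.univ : Set (Fin (X.R + 1))), {n | X.ty n (m n) = s}) ∈ UU := by
        have : (⋃ s ∈ (Set.univ : Set (Fin (X.R + 1))), {n | X.ty n (m n) = s}) = Set.univ := by
          ext n; simp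
        rw [this]; exact Filter.univ_mem
      obtain ⟨s, _, hs⟩ := (Ultrafilter.finite_biUnion_mem_iff Set.finite_univ).1 h1
      exact ⟨s, hs⟩
    have hcs : 0 < X.c s := by
      obtain ⟨n, h1, h2⟩ := (hlm.and hs).exists
      rw [← h2]; exact h1.2
    obtain ⟨c, hac, hcm, hcn, f, f', hf⟩ := X.shadow_part (a := a) (m := m) hsm ham
      (hst.mono fun n h => h.2.2.1)
    have hca : ∀ᶠ n in (UU : Filter ℕ), c n ≤ a' n := by
      filter_upwards [hcm, hma] with n h1 h2 using h1.trans h2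
    have h0a : ∀ b : ℕ → ℕ, ∀ᶠ n in (UU : Filter ℕ), (fun _ => 0 : ℕ → ℕ) n ≤ b n :=
      fun b => Eventually.of_forall fun n => Nat.zero_le _
    -- standard parts
    obtain ⟨t', _, _, ht'⟩ := exists_st (L := X.L) X.tL (a := fun n => (a' n : ℝ))
        (A := A1 + (X.C + 1)) (by
          filter_upwards [haA] with n hn using ⟨by positivity, hn⟩)
    have hcA : ∀ᶠ n in (UU : Filter ℕ), (c n : ℝ) ≤ (A1 + (X.C + 1)) * X.L n := by
      filter_upwards [hca, haA] with n h1 h2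
      exact (by exact_mod_cast h1 : (c n : ℝ) ≤ a' n).trans h2
    refine ⟨a', t', A1 + (X.C + 1), fun n => (X.nx_spec n _).2.1, ?_, haA, ht', ?_⟩
    · have hρ : X.QA m a' = X.zf (some (some s)) := by
        unfold QA zf
        rw [gm_eq]
        filter_upwards [hlm, hs] with n h1 h2
        obtain ⟨h4, h5⟩ := X.type_spec h1.1
        rw [h2] at h5
        exact h5
      have e1 : X.T a' = X.T a + X.NA (fun _ => 0) a * ((f : GG) + -(X.NA a c * f'))
          + X.NA (fun _ => 0) a * (X.NA a c * (X.QA c m + X.NA c m * X.zf (some (some s)))) := by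
        unfold T
        rw [X.comp (h0a a) haa, X.comp hac hca, X.comp hcm hma, hf, hρ]
        ring
      rw [e1]
      have k1' : X.RepE (-(X.NA a c * (f' : GG))) := (X.RepE_NA hcA (RepE.const f')).neg
      have k2 : X.RepE (X.QA c m) := by
        have h1 := X.QA_const hcm hcn
        exact RepE.const (X := X) ⟨_, h1⟩
      have k3 : X.RepE (X.NA c m * X.zf (some (some s))) := X.RepE_NA hmA (RepE.gen _)
      exact (hr.add (X.RepE_NA hA ((RepE.const f).add k1'))).add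
        (X.RepE_NA hA (X.RepE_NA hcA (k2.add k3)))
    · have h1 : X.c s ≤ t' - t := by
        refine Pool.Agent.TH932.S2.near_le X.tL (X.c_near s) (ht'.sub ht) ?_
        filter_upwards [hlm, hs, ham] with n h1 h2 h3
        have h4 := (X.type_spec h1.1).1
        rw [h2] at h4
        have h5 : (a' n : ℝ) = m n + X.len n s := by exact_mod_cast h4
        have h6 : (a n : ℝ) ≤ m n := by exact_mod_cast h3
        linarith
      have := X.cmin_le s hcs
      linarith
  · -- no further long special positions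
    left
    push Not at hI
    intro E
    set A1 : ℝ := |A| + (|E| + 1) / X.lam + 2 with hA1
    have hlb := X.lam_pos
    have hA1p : 0 ≤ A1 := by positivity
    have h1 := hI A1
    have h2 : ∀ᶠ n in (UU : Filter ℕ), ¬ ∃ m, X.lm n m ∧ a n ≤ m ∧ (m : ℝ) ≤ A1 * X.L n := by
      filter_upwards [h1] with n hn
      rintro ⟨m, h3, h4, h5⟩
      exact absurd h5 (not_le.2 (hn m h3 h4))
    set m : ℕ → ℕ := fun n => ⌊A1 * X.L n⌋₊ with hm
    have hm1 : ∀ n, (m n : ℝ) ≤ A1 * X.L n := fun n =>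
      Nat.floor_le (by have := X.L1 n; positivity)
    have hm2 : ∀ n, A1 * X.L n < m n + 1 := fun n => Nat.lt_floor_add_one _
    have ham : ∀ᶠ n in (UU : Filter ℕ), a n ≤ m n := by
      filter_upwards [hA] with n h3
      have h4 := hm2 n
      have h5 := X.L1 n
      have h6 : A * X.L n ≤ |A| * X.L n := by have := le_abs_self A; gcongr
      have h7 : 0 ≤ (|E| + 1) / X.lam * X.L n := by positivity
      have h8 : (a n : ℝ) < m n + 1 := by
        rw [hA1] at h4
        nlinarith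
      have : a n < m n + 1 := by exact_mod_cast h8
      omega
    obtain ⟨c, hac, hcm, hcn, f, f', hf⟩ := X.shadow_part (a := a) (m := m) hsm ham (by
      filter_upwards [h2] with n h3 m' h4 h5 h6
      exact h3 ⟨m', h6, h4, by
        have : (m' : ℝ) ≤ m n := by exact_mod_cast h5.le
        exact this.trans (hm1 n)⟩)
    have hcA : ∀ᶠ n in (UU : Filter ℕ), (c n : ℝ) ≤ A1 * X.L n := by
      filter_upwards [hcm] with n hn
      exact (by exact_mod_cast hn : (c n : ℝ) ≤ m n).trans (hm1 n)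
    have h0a : ∀ b : ℕ → ℕ, ∀ᶠ n in (UU : Filter ℕ), (fun _ => 0 : ℕ → ℕ) n ≤ b n :=
      fun b => Eventually.of_forall fun n => Nat.zero_le _
    refine X.done_of (a := c) ?_ ?_
    · have e1 : X.T c = X.T a + X.NA (fun _ => 0) a * ((f : GG) + -(X.NA a c * f')) := by
        unfold T
        rw [X.comp (h0a a) hac, hf]
        ring
      rw [e1]
      have k1' : X.RepE (-(X.NA a c * (f' : GG))) := (X.RepE_NA hcA (RepE.const f')).neg
      exact hr.add (X.RepE_NA hA ((RepE.const f).add k1'))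
    · filter_upwards [hcn (1 / 2) (by norm_num)] with n h3
      have h4 := (abs_le.1 h3).2
      have h5 := hm2 n
      have h6 := X.L1 n
      simp only [zero_mul, sub_zero] at h4
      have h7 : (|E| + 1) / X.lam * X.L n ≤ c n := by
        rw [hA1] at h5
        have : 0 ≤ |A| * X.L n := by positivity
        nlinarith
      have h8 : (|E| + 1) / X.lam * X.L n * X.lam ≤ c n * X.lam := by gcongr
      have h9 : (|E| + 1) / X.lam * X.L n * X.lam = (|E| + 1) * X.L n := by field_simp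
      have h10 : (E + 1) * X.L n ≤ (|E| + 1) * X.L n := by have := le_abs_self E; gcongr
      linarith

/-- the chain -/
lemma chain (e : ℕ) : X.Done ∨
    ∃ (a : ℕ → ℕ) (t A : ℝ), (∀ n, X.smk n (a n)) ∧ X.RepE (X.T a) ∧
      (∀ᶠ n in (UU : Filter ℕ), (a n : ℝ) ≤ A * X.L n) ∧
      near X.L (fun n => (a n : ℝ)) t ∧ e * X.cmin ≤ t := by
  induction e with
  | zero =>
    right
    obtain ⟨t, ht0, _, ht⟩ := exists_st (L := X.L) X.tL (a := fun n => (X.nx n 0 : ℝ))
      (A := X.C + 1) (Eventually.of_forall fun n => ⟨by positivity, X.nx0_le n⟩)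
    exact ⟨fun n => X.nx n 0, t, X.C + 1, fun n => (X.nx_spec n 0).2.1,
      RepE.gen (X := X) (some none), Eventually.of_forall fun n => X.nx0_le n, ht, by simpa using ht0⟩
  | succ e ih =>
    rcases ih with h | ⟨a, t, A, h1, h2, h3, h4, h5⟩
    · exact Or.inl h
    · rcases X.stage h1 h2 h3 h4 with h | ⟨a', t', A', g1, g2, g3, g4, g5⟩
      · exact Or.inl h
      · right
        refine ⟨a', t', A', g1, g2, g3, g4, ?_⟩
        push_cast
        linarith

lemma done : X.Done := by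
  intro E
  have hlb := X.lam_pos
  have hcm := X.cmin_pos
  obtain ⟨e, he⟩ := exists_nat_gt (((|E| + 1) / X.lam + 1) / X.cmin)
  rw [div_lt_iff₀ hcm] at he
  rcases X.chain e with h | ⟨a, t, A, h1, h2, h3, h4, h5⟩
  · exact h E
  · refine X.done_of h2 ?_
    filter_upwards [h4 1 one_pos] with n h6
    have h7 := (abs_le.1 h6).1
    have h8 := X.L1 n
    have h9 : (|E| + 1) / X.lam * X.L n ≤ a n := by nlinarith
    have h10 : (|E| + 1) / X.lam * X.L n * X.lam ≤ a n * X.lam := by gcongr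
    have h11 : (|E| + 1) / X.lam * X.L n * X.lam = (|E| + 1) * X.L n := by field_simp
    have h12 : (E + 1) * X.L n ≤ (|E| + 1) * X.L n := by have := le_abs_self E; gcongr
    linarith

/-- **Representations.** -/
theorem rep : Rep X.B X.tL (X.y 0) := by
  refine ⟨Option (Option (Fin (X.R + 1))), inferInstance, X.zf, X.SZ, X.zf_mem, X.zf_sint,
    fun E => ?_⟩
  obtain ⟨S, ⟨P, hP2⟩, s, hs, hx⟩ := X.done E
  exact ⟨P, s, by rw [← hs]; exact hP2, hx⟩

end RG

end Pool.Agent.TH634.AR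

namespace Pool.Agent.TH634.AL

open Filter Topology Pool.Agent.TH932.Abs Pool.Agent.TH932.Germs Pool.Agent.TH932.Chi Pool.Agent.TH796.AL
open Pool.Agent.TH932.Words

theorem repg : RepGStmt := by
  intro m B α hα γ c hγ e he w x hadr hx N hN2 C hC hL
  obtain ⟨y, M, hM, hy0, hy⟩ := hadr
  have hC0 : 0 ≤ |C| := abs_nonneg C
  have h1 : ∀ n, ∃ l, N n ≤ 2 * l ∧ l ≤ N n ∧ (cx w l : ℝ) ≤ 2 * |C| * l ∧
      (cx w (l + 1) : ℝ) ≤ 3 * |C| + cx w l := by
    intro n
    apply Pool.Agent.TH932.S2.exists_scale2 _ hC0 (hN2 n)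
    refine (hC n).trans ?_
    have := le_abs_self C
    gcongr
  choose l hl1 hl2 hl3 hl4 using h1
  have g1 : ∀ n, 1 ≤ l n := fun n => by
    have h2 := hl1 n
    have h3 := hN2 n
    omega
  have g2 : ∀ n, (l n : ℝ) ≤ (N n : ℝ) := fun n => by exact_mod_cast hl2 n
  have g3 : ∀ n, (N n : ℝ) ≤ 2 * (l n : ℝ) := fun n => by exact_mod_cast hl1 n
  have g4 : ∀ n, 2 * cx w (l n + 1) ≤ ⌈6 * |C|⌉₊ + 2 * cx w (l n) := fun n => by
    have h2 := hl4 n
    have h3 : 6 * |C| ≤ (⌈6 * |C|⌉₊ : ℝ) := Nat.le_ceil _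
    have h4 : ((2 * cx w (l n + 1) : ℕ) : ℝ)
        ≤ ((⌈6 * |C|⌉₊ + 2 * cx w (l n) : ℕ) : ℝ) := by
      push_cast
      linarith
    exact_mod_cast h4
  have h5 := Pool.Agent.TH634.AR.RG.rep { m := m, B := B, α := α, fin := hα, γ := γ, tr := c, hγ := hγ, e := e, he := he, w := w, y := y, M := M, hM := hM, hy := hy, hx := by rw [hy0]; exact hx, l := l, L := fun n => (N n : ℝ), R := ⌈6 * |C|⌉₊, C := 2 * |C|, tL := hL, hl1 := g1, hlL := g2, hLl := g3, hcx := hl3, hR := g4 }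
  have h6 : Rep B hL (y 0) := h5
  rw [hy0] at h6
  exact h6

end Pool.Agent.TH634.AL
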