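import Pool.Agent.TH796.AL.Stms

set_option autoImplicit false

/-!
# Project AL: extension of scalars for the group ring (job 3322)
-/

namespace Pool.Agent.TH634.AL

open Filter Topology Pool.Agent.TH932.Abs Pool.Agent.TH932.Germs Pool.Agent.TH932.Chi Pool.Agent.TH796.AL

section
variable {m : ℕ} (B : Base m) {L : ℕ → ℝ} (hL : Tendsto L atTop atTop)

lemma evE_single (g : Fin m → ℝ) (a : KK L hL) :
    ev B hL (AddMonoidAlgebra.single g a) = (a : GG) * ch B hL g := by
  unfold TH796.AL.ev
  change AddMonoidAlgebra.liftNC _ _ _ = _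
  rw [AddMonoidAlgebra.liftNC_single]
  rfl

lemma evAE_single (F : IntermediateField ℚ ℝ) (g : Fin m → ℝ) (a : KA F hL) :
    evA F B hL (AddMonoidAlgebra.single g a) = (a : HR) * rho (ch B hL g) := by
  unfold evA
  change AddMonoidAlgebra.liftNC _ _ _ = _
  rw [AddMonoidAlgebra.liftNC_single]
  rfl

end

open Classical in
lemma coeff_sumE {R G : Type} [Semiring R] (s : Finset G) (a : G → R) (x : G) :
    (∑ g ∈ s, (AddMonoidAlgebra.single g (a g) : AddMonoidAlgebra R G)).coeff x
      = if x ∈ s then a x else 0 := by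
  have h : (∑ g ∈ s, (AddMonoidAlgebra.single g (a g) : AddMonoidAlgebra R G)).coeff x
      = ∑ g ∈ s, (AddMonoidAlgebra.single g (a g) : AddMonoidAlgebra R G).coeff x := by
    induction s using Finset.induction_on with
    | empty => simp
    | insert b s hb ih => rw [Finset.sum_insert hb, Finset.sum_insert hb,
        AddMonoidAlgebra.coeff_add, Finsupp.add_apply, ih]
  rw [h]
  split_ifs with hx
  · rw [Finset.sum_eq_single x]
    · rw [AddMonoidAlgebra.coeff_single, Finsupp.single_eq_same]
    · intro b _ hb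
      rw [AddMonoidAlgebra.coeff_single, Finsupp.single_eq_of_ne (Ne.symm hb)]
    · intro h; exact absurd hx h
  · rw [Finset.sum_eq_zero]
    intro b hb
    rw [AddMonoidAlgebra.coeff_single, Finsupp.single_eq_of_ne]
    rintro rfl; exact hx hb

lemma sum_singleE {R G : Type} [Semiring R] (f : AddMonoidAlgebra R G) :
    f = ∑ g ∈ f.coeff.support, AddMonoidAlgebra.single g (f.coeff g) := by
  apply AddMonoidAlgebra.coeff_injective
  ext x
  rw [coeff_sumE]
  split_ifs with hx
  · rfl
  · exact Finsupp.notMem_support_iff.1 hx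

theorem ext (hd : DecStmt) (hj : DisjStmt) : ExtStmt := by
  intro m B L hL F hF J _ ζ hζ A hA
  classical
  set β := Module.finBasis ℚ F with hβ
  have h1 : ∀ j g, ∃ c : Fin (Module.finrank ℚ F) → KK L hL,
      (((A j).coeff g : KA F hL) : HR) = ∑ k, algebraMap ℝ HR (β k : ℝ) * rho (c k : GG) :=
    fun j g => (hd L hL F hF _ _ β _).1 ((A j).coeff g).2
  choose c hc using h1
  set A' : Fin (Module.finrank ℚ F) → J → Rg m hL := fun k j =>
    ∑ g ∈ (A j).coeff.support, AddMonoidAlgebra.single g (c j g k) with hA'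
  have hev : ∀ k j, ev B hL (A' k j)
      = ∑ g ∈ (A j).coeff.support, ((c j g k : KK L hL) : GG) * ch B hL g := by
    intro k j
    rw [hA', map_sum]
    exact Finset.sum_congr rfl fun g _ => evE_single B hL g _
  have hevA : ∀ j, evA F B hL (A j)
      = ∑ k, algebraMap ℝ HR (β k : ℝ) * rho (ev B hL (A' k j)) := by
    intro j
    conv_lhs => rw [sum_singleE (A j)]
    rw [map_sum]
    simp_rw [hev, map_sum, Finset.mul_sum]
    rw [Finset.sum_comm]
    refine Finset.sum_congr rfl fun g _ => ?_
    rw [evAE_single, hc j g, Finset.sum_mul]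
    refine Finset.sum_congr rfl fun k _ => ?_
    rw [map_mul, mul_assoc]
  have h2 : ∑ k, algebraMap ℝ HR (β k : ℝ) * rho (∑ j, ev B hL (A' k j) * ζ j) = 0 := by
    rw [← hA]
    simp_rw [hevA, map_sum, Finset.mul_sum, Finset.sum_mul]
    rw [Finset.sum_comm]
    refine Finset.sum_congr rfl fun j _ => Finset.sum_congr rfl fun k _ => ?_
    rw [map_mul, mul_assoc]
  have hlin : LinearIndependent ℚ (fun k => ((β k : F) : ℝ)) := by
    have := β.linearIndependent.map' (F.val.toLinearMap)
      (LinearMap.ker_eq_bot.2 F.val.injective)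
    exact this
  have h3 := hj _ _ _ hlin _ h2
  have h4 : ∀ k j, A' k j = 0 := fun k => hζ (A' k) (h3 k)
  intro j
  apply AddMonoidAlgebra.coeff_injective
  ext g
  by_cases hg : g ∈ (A j).coeff.support
  · have h5 : ∀ k, c j g k = 0 := by
      intro k
      have h6 : (A' k j).coeff g = c j g k := by
        rw [hA']
        change (∑ g ∈ (A j).coeff.support, AddMonoidAlgebra.single g (c j g k)).coeff g = _
        rw [coeff_sumE, if_pos hg]
      rw [← h6, h4 k j]
      rfl
    have h7 := hc j g
    rw [h7, AddMonoidAlgebra.coeff_zero]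
    simp [h5]
  · have := Finsupp.notMem_support_iff.1 hg
    rw [this]
    rfl

end Pool.Agent.TH634.AL
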