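import Mathlib
set_option autoImplicit false
namespace Pool.Agent.TH634.C8_CONE

open Filter Topology in
/-- Rational approximation on rational polyhedral cones. -/
theorem cone_approx {m : ℕ} {ι : Type} (S : ι → Fin m → ℤ) (hfin : (Set.range S).Finite)
    (Φ : Fin m → ℤ)
    (h : ∀ x : Fin m → ℤ, (∀ s, 0 ≤ ∑ i, S s i * x i) → 0 ≤ ∑ i, Φ i * x i)
    (r : Fin m → ℝ) (hr : ∀ s, 0 ≤ ∑ i, (S s i : ℝ) * r i) : 0 ≤ ∑ i, (Φ i : ℝ) * r i := by
  by_contra hneg
  push Not at hneg
  -- the rational span of the r i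
  let W : Submodule ℚ ℝ := Submodule.span ℚ (Set.range r)
  have : FiniteDimensional ℚ W := FiniteDimensional.span_of_finite ℚ (Set.finite_range r)
  let b := Module.finBasis ℚ W
  set k := Module.finrank ℚ W with hk
  let rW : Fin m → W := fun i => ⟨r i, Submodule.subset_span ⟨i, rfl⟩⟩
  let q : Fin m → Fin k → ℚ := fun i l => b.repr (rW i) l
  have hq : ∀ i, r i = ∑ l, (q i l : ℝ) * (b l : ℝ) := by
    intro i
    have h1 := b.sum_repr (rW i)
    have h2 := congrArg (Subtype.val) h1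
    simp only [Submodule.coe_sum, Submodule.coe_smul] at h2
    rw [show r i = ((rW i : W) : ℝ) from rfl, ← h2]
    apply Finset.sum_congr rfl
    intro l _
    rw [Rat.smul_def]
  -- linear forms in u
  let x : (Fin k → ℝ) → Fin m → ℝ := fun u i => ∑ l, (q i l : ℝ) * u l
  let e : Fin k → ℝ := fun l => (b l : ℝ)
  have hxe : x e = r := by funext i; exact (hq i).symm
  have hcont : ∀ c : Fin m → ℤ, Continuous (fun u => ∑ i, (c i : ℝ) * x u i) := by
    intro c
    show Continuous (fun u : Fin k → ℝ => ∑ i, (c i : ℝ) * ∑ l, (q i l : ℝ) * u l)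
    fun_prop
  -- vanishing
  have hvan : ∀ c : Fin m → ℤ, ∑ i, (c i : ℝ) * r i = 0 → ∀ u, ∑ i, (c i : ℝ) * x u i = 0 := by
    intro c hc u
    have h1 : ∑ i, (c i : ℚ) • rW i = 0 := by
      apply Subtype.ext
      simp only [Submodule.coe_sum, Submodule.coe_smul, Submodule.coe_zero]
      rw [← hc]
      apply Finset.sum_congr rfl
      intro i _
      rw [Rat.smul_def]
      simp [rW]
    have h2 : ∀ l, ∑ i, (c i : ℚ) * q i l = 0 := by
      intro l
      have h3 := congrArg (fun w => b.repr w l) h1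
      simp only [map_sum, map_smul, map_zero, Finsupp.coe_zero, Pi.zero_apply,
        Finsupp.coe_finsetSum, Finset.sum_apply, Finsupp.coe_smul, Pi.smul_apply,
        smul_eq_mul] at h3
      exact h3
    have h4 : ∀ l, ∑ i, (c i : ℝ) * (q i l : ℝ) = 0 := by
      intro l
      have := congrArg (fun z : ℚ => (z : ℝ)) (h2 l)
      push_cast at this
      exact this
    show ∑ i, (c i : ℝ) * ∑ l, (q i l : ℝ) * u l = 0
    simp_rw [Finset.mul_sum]
    rw [Finset.sum_comm]
    have : ∀ l, ∑ i, (c i : ℝ) * ((q i l : ℝ) * u l) = 0 := by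
      intro l
      have h5 : ∑ i, (c i : ℝ) * ((q i l : ℝ) * u l) = (∑ i, (c i : ℝ) * (q i l : ℝ)) * u l := by
        rw [Finset.sum_mul]
        apply Finset.sum_congr rfl
        intro i _
        ring
      rw [h5, h4 l, zero_mul]
    simp [this]
  -- the open set
  have hev1 : ∀ᶠ u in 𝓝 e, ∑ i, (Φ i : ℝ) * x u i < 0 := by
    apply (hcont Φ).continuousAt.eventually_lt continuousAt_const
    rw [hxe]; exact hneg
  have hev2 : ∀ᶠ u in 𝓝 e, ∀ c ∈ Set.range S, 0 ≤ ∑ i, (c i : ℝ) * x u i := by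
    rw [hfin.eventually_all]
    rintro c ⟨s, rfl⟩
    rcases (hr s).eq_or_lt with h0 | h0
    · exact Filter.Eventually.of_forall (fun u => (hvan (S s) h0.symm u).symm.le)
    · have : ∀ᶠ u in 𝓝 e, 0 < ∑ i, (S s i : ℝ) * x u i := by
        apply continuousAt_const.eventually_lt (hcont (S s)).continuousAt
        rw [hxe]; exact h0
      exact this.mono (fun u hu => hu.le)
  have hev := hev1.and hev2
  obtain ⟨U, hUsub, hUopen, heU⟩ := mem_nhds_iff.mp hev
  -- dense rational points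
  have hdense : DenseRange (fun (v : Fin k → ℚ) (l : Fin k) => ((v l : ℚ) : ℝ)) := by
    have := DenseRange.piMap (ι := Fin k) (f := fun _ : Fin k => ((↑) : ℚ → ℝ))
      (fun _ => Rat.denseRange_cast)
    exact this
  obtain ⟨v, hv⟩ := hdense.exists_mem_open hUopen ⟨e, heU⟩
  obtain ⟨hv1, hv2⟩ := hUsub hv
  -- rational vector
  let y : Fin m → ℚ := fun i => ∑ l, q i l * v l
  have hy : ∀ i, x (fun l => ((v l : ℚ) : ℝ)) i = ((y i : ℚ) : ℝ) := by
    intro i
    simp only [x, y]
    push_cast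
    rfl
  -- clear denominators
  let D : ℕ := ∏ i, (y i).den
  have hD : 0 < D := Finset.prod_pos (fun i _ => (y i).den_pos)
  have hint : ∀ i, ∃ z : ℤ, (z : ℚ) = D * y i := by
    intro i
    have hdvd : (y i).den ∣ D := Finset.dvd_prod_of_mem _ (Finset.mem_univ i)
    obtain ⟨t, ht⟩ := hdvd
    refine ⟨t * (y i).num, ?_⟩
    have h1 : (y i) * (y i).den = (y i).num := Rat.mul_den_eq_num (y i)
    rw [ht]
    push_cast
    rw [← h1]
    ring
  choose z hz using hint
  have hz' : ∀ i, (z i : ℝ) = (D : ℝ) * x (fun l => ((v l : ℚ) : ℝ)) i := by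
    intro i
    rw [hy i]
    have := congrArg (fun w : ℚ => (w : ℝ)) (hz i)
    push_cast at this
    exact this
  have key : ∀ c : Fin m → ℤ, ((∑ i, c i * z i : ℤ) : ℝ) =
      (D : ℝ) * ∑ i, (c i : ℝ) * x (fun l => ((v l : ℚ) : ℝ)) i := by
    intro c
    push_cast
    rw [Finset.mul_sum]
    apply Finset.sum_congr rfl
    intro i _
    rw [hz' i]; ring
  have hDr : (0 : ℝ) < D := by exact_mod_cast hD
  have hpos : ∀ s, 0 ≤ ∑ i, S s i * z i := by
    intro s
    have h1 := hv2 (S s) ⟨s, rfl⟩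
    have h2 : (0 : ℝ) ≤ ((∑ i, S s i * z i : ℤ) : ℝ) := by
      rw [key]; exact mul_nonneg hDr.le h1
    exact_mod_cast h2
  have hfinal := h z hpos
  have h3 : ((∑ i, Φ i * z i : ℤ) : ℝ) < 0 := by
    rw [key]; exact mul_neg_of_pos_of_neg hDr hv1
  have h4 : (∑ i, Φ i * z i : ℤ) < 0 := by exact_mod_cast h3
  omega

end Pool.Agent.TH634.C8_CONE
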