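import Pool.Agent.TH614.HS.Defs2

/-! Job 3611 (project HS, helper614): three collinear chords, case A. -/

set_option autoImplicit false

namespace Pool.Agent.TH634.J3611

open Pool.Agent.TH614.HS

theorem core {L : Type} [Field L]
    (th x0 x1 x2 y0 y1 y2 s t u m a b c mu0 eta0 mu2 eta2 mu1 eta1 : L)
    (h2 : (2 : L) ≠ 0) (hth : th ^ 2 = 3) (hx0 : x0 ≠ 0) (hy1 : y1 ≠ 0) (hy2 : y2 ≠ 0)
    (hs : s ≠ 0) (ht : t ≠ 0) (hu : u ≠ 0)
    (hD : ∀ p w : L, (x0 * w) ^ 2 - th * (s * x0 * p) * (x0 * w) + (s * x0 * p) ^ 2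
      + m * (u * (p * x1 + w * y2)) * (t * (p * x2 - w * y1))
      = (mu0 * (s * x0 * p) + eta0 * (x0 * w)) ^ 2)
    (hind : ∀ α β : L, (∀ p w : L,
      α * ((s * x0 * p) - (t * (p * x2 - w * y1))) +
      β * ((s * x0 * p) + (t * (p * x2 - w * y1)) - th * (x0 * w)
        - m * (u * (p * x1 + w * y2))) = 0) → α = 0 ∧ β = 0)
    (h1 : ∀ p w : L, (mu0 * (s * x0 * p) + eta0 * (x0 * w))
      - (mu2 * (t * (p * x2 - w * y1)) + eta2 * (x0 * w))
      = a * ((s * x0 * p) - (t * (p * x2 - w * y1))))
    (h2' : ∀ p w : L, a * ((mu0 * (s * x0 * p) + eta0 * (x0 * w))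
      + (mu2 * (t * (p * x2 - w * y1)) + eta2 * (x0 * w)))
      = (s * x0 * p) + (t * (p * x2 - w * y1)) - th * (x0 * w) - m * (u * (p * x1 + w * y2)))
    (h3 : ∀ p w : L, (mu2 * (t * (p * x2 - w * y1)) + eta2 * (x0 * w))
      - (mu1 * (u * (p * x1 + w * y2)) + eta1 * (x0 * w))
      = b * ((t * (p * x2 - w * y1)) - (u * (p * x1 + w * y2))))
    (h4 : ∀ p w : L, b * ((mu2 * (t * (p * x2 - w * y1)) + eta2 * (x0 * w))
      + (mu1 * (u * (p * x1 + w * y2)) + eta1 * (x0 * w)))
      = (t * (p * x2 - w * y1)) + (u * (p * x1 + w * y2)) - th * (x0 * w) - m * (s * x0 * p))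
    (h5 : ∀ p w : L, (mu1 * (u * (p * x1 + w * y2)) + eta1 * (x0 * w))
      - (mu0 * (s * x0 * p) + eta0 * (x0 * w))
      = c * ((u * (p * x1 + w * y2)) - (s * x0 * p)))
    (h6 : ∀ p w : L, c * ((mu1 * (u * (p * x1 + w * y2)) + eta1 * (x0 * w))
      + (mu0 * (s * x0 * p) + eta0 * (x0 * w)))
      = (u * (p * x1 + w * y2)) + (s * x0 * p) - th * (x0 * w) - m * (t * (p * x2 - w * y1))) :
    a = b ∧ a = c ∧ a ^ 2 = 1 + m := by
  -- the three coefficients agree
  have hsum : ∀ p w : L, (a - c) * ((s * x0 * p) - (t * (p * x2 - w * y1)))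
      + (b - c) * ((t * (p * x2 - w * y1)) - (u * (p * x1 + w * y2))) = 0 := by
    intro p w
    linear_combination -(h1 p w) - h3 p w - h5 p w
  have habc : a = b ∧ a = c := by
    -- the zero of `V0 - V2`
    have hz0 : (s * x0 * (t * y1)) - (t * ((t * y1) * x2 - (t * x2 - s * x0) * y1)) = 0 := by ring
    by_cases hr : (t * ((t * y1) * x2 - (t * x2 - s * x0) * y1))
        - (u * ((t * y1) * x1 + (t * x2 - s * x0) * y2)) = 0
    · -- the three forms agree at `z`
      obtain ⟨p, hp⟩ : ∃ p, p = t * y1 := ⟨_, rfl⟩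
      obtain ⟨w, hw⟩ : ∃ w, w = t * x2 - s * x0 := ⟨_, rfl⟩
      rw [← hp, ← hw] at hz0 hr
      have hp0 : p ≠ 0 := by rw [hp]; exact mul_ne_zero ht hy1
      obtain ⟨V0, hV0⟩ : ∃ V0, V0 = s * x0 * p := ⟨_, rfl⟩
      have hV0ne : V0 ≠ 0 := by rw [hV0]; exact mul_ne_zero (mul_ne_zero hs hx0) hp0
      have hV2 : t * (p * x2 - w * y1) = V0 := by rw [hV0]; linear_combination -hz0
      have hV1 : u * (p * x1 + w * y2) = V0 := by rw [← hV2]; linear_combination -hr
      obtain ⟨Y, hY⟩ : ∃ Y, Y = x0 * w := ⟨_, rfl⟩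
      have e1 := h1 p w
      have e2 := h2' p w
      have e3 := h3 p w
      have e4 := h4 p w
      have e5 := h5 p w
      have e6 := h6 p w
      have eD := hD p w
      rw [hV2, ← hV0, ← hY] at e1
      rw [hV2, hV1, ← hV0, ← hY] at e2
      rw [hV2, hV1, ← hY] at e3
      rw [hV2, hV1, ← hV0, ← hY] at e4
      rw [hV1, ← hV0, ← hY] at e5
      rw [hV2, hV1, ← hV0, ← hY] at e6
      rw [hV2, hV1, ← hV0, ← hY] at eD
      obtain ⟨R, hR⟩ : ∃ R, R = mu0 * V0 + eta0 * Y := ⟨_, rfl⟩
      have hR2 : mu2 * V0 + eta2 * Y = R := by rw [hR]; linear_combination -e1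
      have hR1 : mu1 * V0 + eta1 * Y = R := by rw [← hR2]; linear_combination -e3
      rw [← hR, hR2] at e2
      rw [hR2, hR1] at e4
      rw [← hR, hR1] at e6
      rw [← hR] at eD
      by_cases hR0 : R = 0
      · exfalso
        rw [hR0] at e2 eD
        have k1 : th * Y = (2 - m) * V0 := by linear_combination e2
        have k2 : Y ^ 2 - th * V0 * Y + V0 ^ 2 + m * V0 * V0 = 0 := by linear_combination eD
        have k3 : (m + 1) ^ 2 * V0 ^ 2 = 0 := by
          have : (th * Y) ^ 2 - 3 * V0 * (th * Y) + 3 * V0 ^ 2 + 3 * m * V0 ^ 2 = 0 := by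
            linear_combination 3 * k2 + Y ^ 2 * hth
          rw [k1] at this
          linear_combination this
        have hm : m + 1 = 0 := by
          have := (mul_eq_zero.1 k3).resolve_right (pow_ne_zero 2 hV0ne)
          exact pow_eq_zero_iff (two_ne_zero) |>.1 this
        have hm1 : m = -1 := by linear_combination hm
        have k4 : Y * (Y - th * V0) = 0 := by
          rw [hm1] at k2
          linear_combination k2
        have k5 : Y = th * V0 := by
          rcases mul_eq_zero.1 k4 with h | h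
          · -- characteristic three
            rw [h, hm1] at k1
            have h3 : (3 : L) = 0 := by
              have : (3 : L) * V0 = 0 := by linear_combination -k1
              exact (mul_eq_zero.1 this).resolve_right hV0ne
            have hth0 : th = 0 := by
              rw [h3] at hth
              exact pow_eq_zero_iff (two_ne_zero) |>.1 hth
            rw [h, hth0, zero_mul]
          · linear_combination h
        -- now `l1` and `l2` have a common zero
        have k6 : V0 + V0 - th * Y - m * V0 = 0 := by linear_combination -k1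
        -- coefficients
        have hdet := hind (-(t * y1) - th * x0 - m * (u * y2)) (-(t * y1)) ?_
        · exact (mul_ne_zero ht hy1) (neg_eq_zero.1 hdet.2)
        · intro p' w'
          -- identity: p * (...) = combination
          have key : p * ((-(t * y1) - th * x0 - m * (u * y2)) * ((s * x0 * p') - (t * (p' * x2 - w' * y1)))
              + (-(t * y1)) * ((s * x0 * p') + (t * (p' * x2 - w' * y1)) - th * (x0 * w')
              - m * (u * (p' * x1 + w' * y2)))) = 0 := by
            have q1 : (s * x0 * p) + (t * (p * x2 - w * y1)) - th * (x0 * w)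
              - m * (u * (p * x1 + w * y2)) = 0 := by
              rw [hV2, hV1, ← hV0, ← hY]; exact k6
            have q2 : (s * x0 * p) - (t * (p * x2 - w * y1)) = 0 := hz0
            linear_combination (-(t * y1) * p') * q1
              + ((-(t * y1) - th * x0 - m * (u * y2)) * p') * q2
          exact (mul_eq_zero.1 key).resolve_left hp0
      · have hR2' : (2 : L) * R ≠ 0 := mul_ne_zero h2 hR0
        refine ⟨mul_right_cancel₀ hR2' ?_, mul_right_cancel₀ hR2' ?_⟩
        · linear_combination e2 - e4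
        · linear_combination e2 - e6
    · have hb : b = c := by
        have := hsum (t * y1) (t * x2 - s * x0)
        rw [hz0, mul_zero, zero_add] at this
        exact sub_eq_zero.1 ((mul_eq_zero.1 this).resolve_right hr)
      have ha : a = c := by
        have h01 := hsum 0 1
        have h02 : (a - c) * (t * y1) = 0 := by
          rw [hb] at h01
          linear_combination h01
        exact sub_eq_zero.1 ((mul_eq_zero.1 h02).resolve_right (mul_ne_zero ht hy1))
      exact ⟨ha.trans hb.symm, ha⟩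
  obtain ⟨hab, hac⟩ := habc
  refine ⟨hab, hac, ?_⟩
  have g1 := h2' 0 1
  have g2 := h4 0 1
  have g3 := h5 0 1
  rw [← hab] at g2
  rw [← hac] at g3
  have : (a ^ 2 - (1 + m)) * (u * y2) = 0 := by
    linear_combination g2 - g1 - a * g3
  have h := (mul_eq_zero.1 this).resolve_right (mul_ne_zero hu hy2)
  linear_combination h

theorem TA : S_TA := by
  intro L _ th x0 x1 x2 y0 y1 y2 s t u a b c mu0 eta0 mu2 eta2 mu1 eta1 h2 hth hPL hs ht hu hRD hind hTri
  obtain ⟨hx0, hx1, hx2, hy0, hy1, hy2, hpl⟩ := hPL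
  have hpt : ∀ p w : L, OnL x0 x1 x2 y0 y1 y2 (x0 * p) (p * x1 + w * y2) (p * x2 - w * y1) (x0 * w) := by
    intro p w
    refine ⟨?_, ?_, ?_⟩
    · linear_combination (-w) * hpl
    · ring
    · ring
  have hcoord : ∀ P0 P1 P2 Y, OnL x0 x1 x2 y0 y1 y2 P0 P1 P2 Y →
      ∃ p w, P0 = x0 * p ∧ P1 = p * x1 + w * y2 ∧ P2 = p * x2 - w * y1 ∧ Y = x0 * w := by
    intro P0 P1 P2 Y h
    obtain ⟨e1, e2, e3⟩ := h
    refine ⟨P0 / x0, Y / x0, ?_, ?_, ?_, ?_⟩
    · field_simp
    · field_simp
      linear_combination e3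
    · field_simp
      linear_combination -e2
    · field_simp
  have hcore := core th x0 x1 x2 y0 y1 y2 s t u (1 / (s * t * u)) a b c mu0 eta0 mu2 eta2 mu1 eta1
    h2 hth hx0 hy1 hy2 hs ht hu ?_ ?_ ?_ ?_ ?_ ?_ ?_ ?_
  · exact hcore
  · intro p w
    have := hRD _ _ _ _ (hpt p w)
    unfold Dq at this
    have e : 1 / (s * t * u) * (u * (p * x1 + w * y2)) * (t * (p * x2 - w * y1))
        = (p * x1 + w * y2) * (p * x2 - w * y1) / s := by
      field_simp
    rw [e]
    linear_combination this
  · intro α β hαβ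
    refine hind α β ?_
    intro P0 P1 P2 Y hP
    obtain ⟨p, w, rfl, rfl, rfl, rfl⟩ := hcoord _ _ _ _ hP
    have := hαβ p w
    have e : 1 / (s * t * u) * (u * (p * x1 + w * y2)) = (p * x1 + w * y2) / (s * t) := by
      field_simp
    rw [e] at this
    unfold l1 l2
    linear_combination this
  · intro p w
    have := (hTri _ _ _ _ (hpt p w)).1
    linear_combination this
  · intro p w
    have := (hTri _ _ _ _ (hpt p w)).2.1
    have e : 1 / (s * t * u) * (u * (p * x1 + w * y2)) = u * (p * x1 + w * y2) / (s * t * u) := by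
      field_simp
    rw [e]
    linear_combination this
  · intro p w
    have := (hTri _ _ _ _ (hpt p w)).2.2.1
    linear_combination this
  · intro p w
    have := (hTri _ _ _ _ (hpt p w)).2.2.2.1
    have e : 1 / (s * t * u) * (s * x0 * p) = s * (x0 * p) / (s * t * u) := by
      field_simp
    rw [e]
    linear_combination this
  · intro p w
    have := (hTri _ _ _ _ (hpt p w)).2.2.2.2.1
    linear_combination this
  · intro p w
    have := (hTri _ _ _ _ (hpt p w)).2.2.2.2.2
    have e : 1 / (s * t * u) * (t * (p * x2 - w * y1)) = t * (p * x2 - w * y1) / (s * t * u) := by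
      field_simp
    rw [e]
    linear_combination this

end Pool.Agent.TH634.J3611
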